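import Pool.Agent.CIS.Defs

/-!
CIS module Cut (size 4): the cut-off functions `cut c x = (x - c) * expNegInvGlue (x - c)` and
`cot c x = Real.smoothTransition (x - c + 2)`.
PROOF. Smoothness: `expNegInvGlue.contDiff`, `Real.smoothTransition.contDiff`. Zero for `x ≤ c`:
`expNegInvGlue.zero_of_nonpos`. Positive for `c < x`: `expNegInvGlue.pos_of_pos`. `cot`:
`Real.smoothTransition.zero_of_nonpos`, `Real.smoothTransition.one_of_one_le`.
Second derivative of `cut c`: for `x > c` the function coincides near `x` with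
`(x - c) * Real.exp (-(x - c)⁻¹)` (unfold `expNegInvGlue`, `if_neg`), whose first derivative is
`exp (-1/y) (1 + 1/y)` and whose second derivative is `exp (-1/y) / y ^ 3 > 0`, with `y = x - c`
(`Filter.EventuallyEq.deriv`, `HasDerivAt`). For `x < c` the function is zero near `x`, so the second
derivative is `0`. For `x = c` it is `0` too, because the second derivative is continuous
(`ContDiff`: `(contDiff_cut c).iterate_deriv` or twice `ContDiff.continuous_deriv`) and vanishes on
`Set.Iio c`, whose closure contains `c`.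
-/

open scoped ContDiff Topology

namespace Pool.Agent.CIS

private theorem cut_hda {c y : ℝ} (h : c < y) :
    HasDerivAt (cut c) (Real.exp (-(y - c)⁻¹) * (1 + (y - c)⁻¹)) y := by
  have hy : y - c ≠ 0 := (sub_pos.2 h).ne'
  have h1 : HasDerivAt (fun t : ℝ => t - c) 1 y := (hasDerivAt_id y).sub_const c
  have h2 : HasDerivAt (fun t : ℝ => (t - c)⁻¹) (-1 / (y - c) ^ 2) y := h1.inv hy
  have h3 : HasDerivAt (fun t : ℝ => Real.exp (-(t - c)⁻¹))
      (Real.exp (-(y - c)⁻¹) * -(-1 / (y - c) ^ 2)) y := h2.neg.exp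
  have h5 : HasDerivAt (fun t : ℝ => (t - c) * Real.exp (-(t - c)⁻¹))
      (Real.exp (-(y - c)⁻¹) * (1 + (y - c)⁻¹)) y := by
    refine (h1.mul h3).congr_deriv ?_
    field_simp
  refine h5.congr_of_eventuallyEq ?_
  filter_upwards [lt_mem_nhds h] with t ht
  unfold cut expNegInvGlue
  rw [if_neg (not_le.2 (sub_pos.2 ht))]

private theorem cut_cd2 (c : ℝ) : Continuous (deriv (deriv (cut c))) := by
  have h0 : ContDiff ℝ ∞ (cut c) := by
    unfold cut
    exact (contDiff_id.sub contDiff_const).mul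
      ((expNegInvGlue.contDiff (n := ⊤)).comp (contDiff_id.sub contDiff_const))
  have h1 := (contDiff_infty_iff_deriv.1 h0).2
  have h2 := (contDiff_infty_iff_deriv.1 h1).2
  exact h2.continuous

theorem contDiff_cut (c : ℝ) : ContDiff ℝ ∞ (cut c) := by
  unfold cut
  exact (contDiff_id.sub contDiff_const).mul
    ((expNegInvGlue.contDiff (n := ⊤)).comp (contDiff_id.sub contDiff_const))

theorem cut_zero {c x : ℝ} (h : x ≤ c) : cut c x = 0 := by
  unfold cut
  rw [expNegInvGlue.zero_of_nonpos (sub_nonpos.2 h), mul_zero]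

theorem cut_pos {c x : ℝ} (h : c < x) : 0 < cut c x := by
  unfold cut
  exact mul_pos (sub_pos.2 h) (expNegInvGlue.pos_of_pos (sub_pos.2 h))

theorem cut_nonneg (c x : ℝ) : 0 ≤ cut c x := by
  rcases le_or_gt x c with h | h
  · exact (cut_zero h).ge
  · exact (cut_pos h).le

theorem deriv2_cut_pos {c x : ℝ} (h : c < x) : 0 < deriv (deriv (cut c)) x := by
  have hy : 0 < x - c := sub_pos.2 h
  have hy' : x - c ≠ 0 := hy.ne'
  have h0 : deriv (cut c) =ᶠ[𝓝 x] fun t => Real.exp (-(t - c)⁻¹) * (1 + (t - c)⁻¹) := by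
    filter_upwards [lt_mem_nhds h] with t ht
    exact (cut_hda ht).deriv
  have h1 : HasDerivAt (fun t : ℝ => t - c) 1 x := (hasDerivAt_id x).sub_const c
  have h2 : HasDerivAt (fun t : ℝ => (t - c)⁻¹) (-1 / (x - c) ^ 2) x := h1.inv hy'
  have h3 : HasDerivAt (fun t : ℝ => Real.exp (-(t - c)⁻¹))
      (Real.exp (-(x - c)⁻¹) * -(-1 / (x - c) ^ 2)) x := h2.neg.exp
  have h4 : HasDerivAt (fun t : ℝ => Real.exp (-(t - c)⁻¹) * (1 + (t - c)⁻¹))
      (Real.exp (-(x - c)⁻¹) * ((x - c)⁻¹) ^ 3) x := by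
    refine (h3.mul (h2.const_add 1)).congr_deriv ?_
    field_simp
    ring
  rw [h0.deriv_eq, h4.deriv]
  positivity

theorem deriv2_cut_nonneg (c x : ℝ) : 0 ≤ deriv (deriv (cut c)) x := by
  have hlt : ∀ y : ℝ, y < c → deriv (deriv (cut c)) y = 0 := by
    intro y hy
    have h1 : ∀ t : ℝ, t < c → deriv (cut c) t = 0 := by
      intro t ht
      have h2 : cut c =ᶠ[𝓝 t] fun _ => (0 : ℝ) := by
        filter_upwards [gt_mem_nhds ht] with r hr
        exact cut_zero hr.le
      rw [h2.deriv_eq, deriv_const]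
    have h3 : deriv (cut c) =ᶠ[𝓝 y] fun _ => (0 : ℝ) := by
      filter_upwards [gt_mem_nhds hy] with r hr
      exact h1 r hr
    rw [h3.deriv_eq, deriv_const]
  rcases lt_trichotomy x c with h | h | h
  · exact (hlt x h).ge
  · subst h
    refine ge_of_tendsto ((cut_cd2 x).continuousAt.tendsto.mono_left
      (nhdsWithin_le_nhds (s := Set.Iio x))) ?_
    filter_upwards [self_mem_nhdsWithin] with t ht
    exact (hlt t ht).ge
  · exact (deriv2_cut_pos h).le

theorem contDiff_cot (c : ℝ) : ContDiff ℝ ∞ (cot c) := by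
  unfold cot
  exact (Real.smoothTransition.contDiff (n := ⊤)).comp
    ((contDiff_id.sub contDiff_const).add contDiff_const)

theorem cot_zero {c x : ℝ} (h : x ≤ c - 2) : cot c x = 0 := by
  unfold cot
  exact Real.smoothTransition.zero_of_nonpos (by linarith)

theorem cot_one {c x : ℝ} (h : c - 1 ≤ x) : cot c x = 1 := by
  unfold cot
  exact Real.smoothTransition.one_of_one_le (by linarith)

end Pool.Agent.CIS
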