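import Pool.Agent.CIS.Defs

/-!
CIS module Mul (size 3): the Levi matrix of a product and of `|f|²`.
PROOF of `LM_mul`. `cx (u v) = cx u * cx v` (funext, `Complex.ofReal_mul`). On the open set `U`
`pb j (cx u * cx v) = pb j (cx u) * cx v + cx u * pb j (cx v)` (`pb_mul_at`, DTW/Key.lean); apply
`pk_congr`, then `pk k` of a sum (`d10_add`, DTW/Base.lean) and of products (`pk_mul_at`); finally
`pb j (cx u) z = conj (pk j (cx u) z)` by `pk_cx` (DTW/Comm.lean).
PROOF of `pk_nq`, `LM_nq`. `nq f z = ‖f z‖ ^ 2 = uu 0 w f z` for `w = fun _ => 0` (or any `w`;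
`uu m w f z = ‖f z‖ ^ 2 * Real.exp (-(m * w z))`); use `LM_uu`, `pb_cx_uu` of DTW/Key.lean with
`m = 0`, `w = fun _ => 0`: `DD 0 w k f z = pk k f z` (simp), `pb j f = 0` on `U`, so `pk i (pb j f) z = 0`
(`pb j f` vanishes near `z`: `pk_congr` and `d10_const`). Or directly: `cx (nq f) = f * conj f`.
-/

open scoped ContDiff ComplexConjugate Topology
open Complex

namespace Pool.Agent.CIS

open Pool.Agent.DTW

variable {n : ℕ} {U : Set (E n)} {z : E n}

theorem LM_mul {u v : E n → ℝ} (hU : IsOpen U) (hu : ContDiffOn ℝ ∞ u U)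
    (hv : ContDiffOn ℝ ∞ v U) (hz : z ∈ U) (k j : Ix n) :
    LM (fun y => u y * v y) z k j
      = LM u z k j * v z + pk k (cx u) z * conj (pk j (cx v) z)
        + pk k (cx v) z * conj (pk j (cx u) z) + u z * LM v z k j := by
  have hcu := contDiffOn_cx hu
  have hcv := contDiffOn_cx hv
  have h0 : cx (fun y => u y * v y) = fun y => cx u y * cx v y := by
    funext y
    simp [cx]
  have h1 : pb j (cx (fun y => u y * v y)) =ᶠ[𝓝 z]
      fun y => pb j (cx u) y * cx v y + cx u y * pb j (cx v) y := by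
    filter_upwards [hU.mem_nhds hz] with y hy
    rw [h0, pb_mul_at (diffAt_of hU hcu hy) (diffAt_of hU hcv hy)]
  have du := diffAt_of hU hcu hz
  have dv := diffAt_of hU hcv hz
  have dpu := diffAt_of hU (contDiffOn_pb hU hcu j) hz
  have dpv := diffAt_of hU (contDiffOn_pb hU hcv j) hz
  have h2 : pb j (cx u) z = conj (pk j (cx u) z) := by
    rw [pk_cx du, Complex.conj_conj]
  have h3 : pb j (cx v) z = conj (pk j (cx v) z) := by
    rw [pk_cx dv, Complex.conj_conj]
  have h4 : pk k (fun y => pb j (cx u) y * cx v y + cx u y * pb j (cx v) y) z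
      = pk k (fun y => pb j (cx u) y * cx v y) z + pk k (fun y => cx u y * pb j (cx v) y) z :=
    d10_add (dpu.mul dv) (du.mul dpv)
  rw [LM_eq, pk_congr h1, h4, pk_mul_at dpu dv, pk_mul_at du dpv, LM_eq, LM_eq, h2, h3]
  have h5 : cx u z = (u z : ℂ) := rfl
  have h6 : cx v z = (v z : ℂ) := rfl
  rw [h5, h6]
  ring

private theorem Mul_cx_nq (f : E n → ℂ) : cx (nq f) = fun y => f y * conj (f y) := by
  funext y
  unfold cx nq
  rw [Complex.mul_conj, Complex.normSq_eq_norm_sq]

private theorem Mul_conjd {f : E n → ℂ} (hf : DifferentiableAt ℝ f z) :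
    DifferentiableAt ℝ (fun y => conj (f y)) z :=
  (Complex.conjCLE.differentiableAt).comp z hf

theorem pk_nq {f : E n → ℂ} (hU : IsOpen U) (hf : ContDiffOn ℝ ∞ f U)
    (hb : ∀ y ∈ U, ∀ j, pb j f y = 0) (hz : z ∈ U) (k : Ix n) :
    pk k (cx (nq f)) z = pk k f z * conj (f z) := by
  have df := diffAt_of hU hf hz
  have h1 : pk k (fun y => conj (f y)) z = conj (pb k f z) := d10_conj df
  rw [Mul_cx_nq, pk_mul_at df (Mul_conjd df), h1, hb z hz k, map_zero, mul_zero, add_zero]

theorem LM_nq {f : E n → ℂ} (hU : IsOpen U) (hf : ContDiffOn ℝ ∞ f U)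
    (hb : ∀ y ∈ U, ∀ j, pb j f y = 0) (hz : z ∈ U) (k j : Ix n) :
    LM (nq f) z k j = pk k f z * conj (pk j f z) := by
  have df := diffAt_of hU hf hz
  have hpk : ContDiffOn ℝ ∞ (pk j f) U := contDiffOn_pk hU hf j
  have dpk := diffAt_of hU hpk hz
  have h1 : pb j (cx (nq f)) =ᶠ[𝓝 z] fun y => f y * conj (pk j f y) := by
    filter_upwards [hU.mem_nhds hz] with y hy
    have dfy := diffAt_of hU hf hy
    have h2 : pb j (fun y => conj (f y)) y = conj (pk j f y) := d01_conj dfy
    rw [Mul_cx_nq, pb_mul_at dfy (Mul_conjd dfy), h2, hb y hy j, zero_mul, zero_add]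
  have h3 : pb k (pk j f) z = 0 := by
    have h4 : pb k (pk j f) z = pk j (pb k f) z := (pk_pb_comm (hf.contDiffAt (hU.mem_nhds hz)) j k).symm
    rw [h4]
    have h5 : pb k f =ᶠ[𝓝 z] fun _ => (0 : ℂ) := by
      filter_upwards [hU.mem_nhds hz] with y hy
      exact hb y hy k
    rw [pk_congr h5]
    exact d10_const 0
  have h6 : pk k (fun y => conj (pk j f y)) z = conj (pb k (pk j f) z) := d10_conj dpk
  rw [LM_eq, pk_congr h1, pk_mul_at df (Mul_conjd dpk), h6, h3, map_zero, mul_zero, add_zero]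

end Pool.Agent.CIS
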