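import Pool.Agent.CIS.Lps
import Pool.Agent.CIS.Mul

/-!
CIS module Fiv (size 2): the Levi matrix of `Ψ(log |s|²) u`.
PROOF. `LM_mul` (module Mul) for the functions `fun y => Ψ (lp m w s y)` and `u`, then `LM_comp` and
`pk_comp` (module Cmp, with `l = lp m w s`, `T = Set.univ`), `pk_lp`, `LM_lp` (module Lps).
-/

open scoped ContDiff ComplexConjugate Topology
open Complex

namespace Pool.Agent.CIS

open Pool.Agent.DTW

variable {n : ℕ} {U : Set (E n)} {z : E n} {m : ℝ} {w : E n → ℝ} {s : E n → ℂ}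

/-- the five terms: `F = LM w`, `p = D s / s`, `d` = derivatives of `u`, `V` = Levi matrix of `u` -/
def five (m : ℝ) (F : Ix n → Ix n → ℂ) (p d : Ix n → ℂ) (V : Ix n → Ix n → ℂ)
    (Ψ₀ Ψ₁ Ψ₂ u : ℝ) (k j : Ix n) : ℂ :=
  (Ψ₂ * u : ℝ) * (p k * conj (p j)) - (m * Ψ₁ * u : ℝ) * F k j
    + Ψ₁ * (p k * conj (d j)) + Ψ₁ * (d k * conj (p j)) + Ψ₀ * V k j

theorem LM_five (hU : IsOpen U) (hw : ContDiffOn ℝ ∞ w U) (hs : ContDiffOn ℝ ∞ s U)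
    (hb : ∀ y ∈ U, ∀ j, pb j s y = 0) (h0 : ∀ y ∈ U, s y ≠ 0) {Ψ : ℝ → ℝ} (hΨ : ContDiff ℝ ∞ Ψ)
    {u : E n → ℝ} (hu : ContDiffOn ℝ ∞ u U) (hz : z ∈ U) (k j : Ix n) :
    LM (fun y => Ψ (lp m w s y) * u y) z k j
      = five m (LM w z) (fun k => DD m w k s z / s z) (fun k => pk k (cx u) z) (LM u z)
        (Ψ (lp m w s z)) (deriv Ψ (lp m w s z)) (deriv (deriv Ψ) (lp m w s z)) (u z) k j := by
  have hl : ContDiffOn ℝ ∞ (lp m w s) U := contDiffOn_lp hw hs h0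
  have hc : ContDiffOn ℝ ∞ (fun y => Ψ (lp m w s y)) U := hΨ.comp_contDiffOn hl
  have hT : ∀ y ∈ U, lp m w s y ∈ (Set.univ : Set ℝ) := fun _ _ => Set.mem_univ _
  rw [LM_mul hU hc hu hz k j, LM_comp hU hl isOpen_univ hT hΨ.contDiffOn hz k j,
    pk_comp hU hl isOpen_univ hT hΨ.contDiffOn hz k,
    pk_comp hU hl isOpen_univ hT hΨ.contDiffOn hz j,
    pk_lp hU hw hs hb h0 hz k, pk_lp hU hw hs hb h0 hz j, LM_lp hU hw hs hb h0 hz k j]
  unfold five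
  simp only [map_mul, Complex.conj_ofReal, Complex.ofReal_mul]
  ring

end Pool.Agent.CIS
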