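import Pool.Agent.CIS.Ext
import Pool.Agent.CIS.Fiv

/-!
CIS module Lex (size 3): the Levi matrix of the extension in a chart, and the key relation for `s`.
PROOF of `LM_ext`. `funext k j`; near `z` (in the open set `Ou A s i`, `isOpen_Ou` in Bas) the function
`vt A (ext B m s Ψ u) i` equals `fun y => Ψ (lp m (B.wt i) (st A s i) y) * vt A u i y`
(`ext_chart`); `LM_congr`, then `LM_five` on `U = Ou A s i` (smoothness: `(B.smooth i).mono`,
`(hs.smooth i).mono` with `Ou_subset`; `pb_st`; `st_ne`; `hu i`). Note `B.wt i = B.w i ∘ (A.c i).symm`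
and `st A s i = s i ∘ (A.c i).symm` by rfl.
PROOF of `key0`: `main_vanish hμ B hsp hq 0 m hs _ i z hz j` (DTW/Main.lean; the hypothesis for `t = 0`
from `pb_st`, `by rw [..]; ring`) and `key0'` by factoring `1 / s` out of the sum.
-/

open scoped ContDiff ComplexConjugate Topology
open Complex MeasureTheory

namespace Pool.Agent.CIS

open Pool.Agent.DTW

variable {n : ℕ} {X : Type*} [TopologicalSpace X] {ι : Type*} {A : Atlas n X ι} {B : Bundle A}
  {m : ℤ} {s : ι → X → ℂ} {Ψ : ℝ → ℝ} {u : X → ℝ} {c : ℝ}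

theorem LM_ext (hs : B.IsSection m s) (hol : B.IsHol s) (hΨ : ContDiff ℝ ∞ Ψ)
    (hu : SmOff A s u) {i : ι} {z : E n} (hz : z ∈ Ou A s i) :
    LM (vt A (ext B m s Ψ u) i) z
      = five (m : ℝ) (LM (B.wt i) z) (fun k => DD (m : ℝ) (B.wt i) k (st A s i) z / st A s i z)
        (fun k => pk k (cx (vt A u i)) z) (LM (vt A u i) z)
        (Ψ (lp (m : ℝ) (B.wt i) (st A s i) z)) (deriv Ψ (lp (m : ℝ) (B.wt i) (st A s i) z))
        (deriv (deriv Ψ) (lp (m : ℝ) (B.wt i) (st A s i) z)) (vt A u i z) := by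
  have hO := isOpen_Ou hs i
  funext k j
  have h1 : vt A (ext B m s Ψ u) i
      =ᶠ[𝓝 z] fun y => Ψ (lp (m : ℝ) (B.wt i) (st A s i) y) * vt A u i y := by
    filter_upwards [hO.mem_nhds hz] with y hy
    exact ext_chart hs hy
  rw [LM_congr h1]
  exact LM_five hO ((B.smooth i).mono (Ou_subset i)) ((hs.smooth i).mono (Ou_subset i))
    (fun y hy j => pb_st hol i hy.1 j) (fun y hy => st_ne hy) hΨ (hu i) hz k j

variable [MeasurableSpace X] [BorelSpace X] [T2Space X] [CompactSpace X] {μ : Measure X}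

theorem key0 (hμ : A.IsVolume μ) (hsp : B.Semipositive) (hq : Para B μ)
    (hs : B.IsSection m s) (hol : B.IsHol s) {i : ι} {z : E n} (hz : z ∈ (A.c i).target)
    (j : Ix n) :
    ∑ k : Ix n, sg k * LM (B.wt i) z k.swap j * DD (m : ℝ) (B.wt i) k (st A s i) z = 0 := by
  refine main_vanish hμ B hsp hq 0 m hs ?_ i z hz j
  intro i z hz j
  rw [pb_st hol i hz j]
  ring

theorem key0' (hμ : A.IsVolume μ) (hsp : B.Semipositive) (hq : Para B μ)
    (hs : B.IsSection m s) (hol : B.IsHol s) {i : ι} {z : E n} (hz : z ∈ (A.c i).target)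
    (j : Ix n) :
    ∑ k : Ix n, sg k * LM (B.wt i) z k.swap j
      * (DD (m : ℝ) (B.wt i) k (st A s i) z / st A s i z) = 0 := by
  have h := key0 hμ hsp hq hs hol hz j
  have h1 : ∑ k : Ix n, sg k * LM (B.wt i) z k.swap j
      * (DD (m : ℝ) (B.wt i) k (st A s i) z / st A s i z)
      = (∑ k : Ix n, sg k * LM (B.wt i) z k.swap j * DD (m : ℝ) (B.wt i) k (st A s i) z)
        / st A s i z := by
    rw [Finset.sum_div]
    exact Finset.sum_congr rfl fun k _ => by ring
  rw [h1, h, zero_div]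

end Pool.Agent.CIS
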