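import Pool.Agent.CIS.Fiv

/-!
CIS module Qaa (size 3): pure algebra. `QQ F V = ∑ k, ∑ l, sg k * sg l * F k.swap l.swap * V k l`
(DTW/Alg.lean), `Iso F` = isotropy, `QQ_self_of_iso : Iso F → QQ F F = 0` (DTW/Key.lean).
PROOF of `QQ_five`. `QQ F` is linear in the second argument; the five terms give:
(1) `∑ k l, sg k sg l F k' l' p k conj (p l) = ∑ l, sg l conj (p l) * (∑ k, sg k F k' l' p k) = 0` by `hp`;
(2) `QQ F F = 0`; (3) `∑ k l, sg k sg l F k' l' p k conj (d l) = 0` by `hp`, as in (1);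
(4) `∑ k l, sg k sg l F k' l' d k conj (p l)
   = ∑ k, sg k d k * conj (∑ l, sg l F l' k' p l) = 0` by `hp` (`conj (F l' k') = F k' l'` by `hh`,
   `conj_sg`); (5) `Ψ₀ * QQ F V`.
PROOF of `rank_one`: in `QQ (f ⊗ conj f) V = ∑ k l, sg k sg l f k' conj (f l') V k l` only
`conj (sg l) = sg l` (`conj_sg`) is used (`Finset.sum_congr`, `ring`).
-/

open scoped ContDiff ComplexConjugate Topology
open Complex

namespace Pool.Agent.CIS

open Pool.Agent.DTW

variable {n : ℕ}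

private theorem Qaa_left {F : Ix n → Ix n → ℂ} {p : Ix n → ℂ}
    (hp : ∀ j, ∑ k : Ix n, sg k * F k.swap j * p k = 0) (c : Ix n → ℂ) :
    ∑ k : Ix n, ∑ l : Ix n, sg k * sg l * F k.swap l.swap * (p k * c l) = 0 := by
  rw [Finset.sum_comm]
  refine Finset.sum_eq_zero fun l _ => ?_
  have h1 : ∑ k : Ix n, sg k * sg l * F k.swap l.swap * (p k * c l)
      = sg l * c l * ∑ k : Ix n, sg k * F k.swap l.swap * p k := by
    rw [Finset.mul_sum]
    refine Finset.sum_congr rfl fun k _ => ?_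
    ring
  rw [h1, hp, mul_zero]

private theorem Qaa_right {F : Ix n → Ix n → ℂ} (hh : ∀ k l, conj (F k l) = F l k)
    {p : Ix n → ℂ} (hp : ∀ j, ∑ k : Ix n, sg k * F k.swap j * p k = 0) (c : Ix n → ℂ) :
    ∑ k : Ix n, ∑ l : Ix n, sg k * sg l * F k.swap l.swap * (c k * conj (p l)) = 0 := by
  refine Finset.sum_eq_zero fun k _ => ?_
  have h0 : ∑ l : Ix n, sg l * F k.swap l.swap * conj (p l) = 0 := by
    have h2 := congrArg conj (hp k.swap)
    simp only [map_sum, map_mul, conj_sg, hh, map_zero] at h2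
    exact h2
  have h1 : ∑ l : Ix n, sg k * sg l * F k.swap l.swap * (c k * conj (p l))
      = sg k * c k * ∑ l : Ix n, sg l * F k.swap l.swap * conj (p l) := by
    rw [Finset.mul_sum]
    refine Finset.sum_congr rfl fun l _ => ?_
    ring
  rw [h1, h0, mul_zero]

theorem QQ_five {F : Ix n → Ix n → ℂ} (hh : ∀ k l, conj (F k l) = F l k) (hI : Iso F)
    {p : Ix n → ℂ} (hp : ∀ j, ∑ k : Ix n, sg k * F k.swap j * p k = 0) (m : ℝ) (d : Ix n → ℂ)
    (V : Ix n → Ix n → ℂ) (Ψ₀ Ψ₁ Ψ₂ u : ℝ) :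
    QQ F (five m F p d V Ψ₀ Ψ₁ Ψ₂ u) = Ψ₀ * QQ F V := by
  have h1 := Qaa_left hp (fun l => conj (p l))
  have h3 := Qaa_left hp (fun l => conj (d l))
  have h4 := Qaa_right hh hp d
  have h2 : ∑ k : Ix n, ∑ l : Ix n, sg k * sg l * F k.swap l.swap * F k l = 0 :=
    QQ_self_of_iso hI
  have h5 : QQ F (five m F p d V Ψ₀ Ψ₁ Ψ₂ u)
      = ((Ψ₂ * u : ℝ) : ℂ) * (∑ k : Ix n, ∑ l : Ix n,
            sg k * sg l * F k.swap l.swap * (p k * conj (p l)))
        - ((m * Ψ₁ * u : ℝ) : ℂ) * (∑ k : Ix n, ∑ l : Ix n,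
            sg k * sg l * F k.swap l.swap * F k l)
        + (Ψ₁ : ℂ) * (∑ k : Ix n, ∑ l : Ix n,
            sg k * sg l * F k.swap l.swap * (p k * conj (d l)))
        + (Ψ₁ : ℂ) * (∑ k : Ix n, ∑ l : Ix n,
            sg k * sg l * F k.swap l.swap * (d k * conj (p l)))
        + (Ψ₀ : ℂ) * QQ F V := by
    unfold QQ five
    simp only [Finset.mul_sum, ← Finset.sum_add_distrib, ← Finset.sum_sub_distrib]
    refine Finset.sum_congr rfl fun k _ => Finset.sum_congr rfl fun l _ => ?_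
    ring
  rw [h5, h1, h2, h3, h4]
  ring

theorem rank_one (f : Ix n → ℂ) (V : Ix n → Ix n → ℂ) :
    QQ (fun k j => f k * conj (f j)) V
      = ∑ k : Ix n, ∑ j : Ix n, (sg k * f k.swap) * conj (sg j * f j.swap) * V k j := by
  unfold QQ
  refine Finset.sum_congr rfl fun k _ => Finset.sum_congr rfl fun l _ => ?_
  rw [map_mul, conj_sg]
  ring

end Pool.Agent.CIS
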