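import Pool.Agent.CIS.Defs

/-!
Basic facts on the complement of the zero set of a section.
-/

open scoped ContDiff ComplexConjugate Topology
open Complex

namespace Pool.Agent.CIS

open Pool.Agent.DTW

variable {n : ℕ} {X : Type*} [TopologicalSpace X] {ι : Type*} {A : Atlas n X ι} {B : Bundle A}
  {m : ℤ} {s : ι → X → ℂ}

theorem mem_Off (hs : B.IsSection m s) {i : ι} {x : X} (hi : x ∈ (A.c i).source) :
    x ∈ Off A s ↔ s i x ≠ 0 := by
  refine ⟨fun h => h i hi, fun h j hj h0 => h ?_⟩
  rw [hs.trans i j x hi hj, h0, mul_zero]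

theorem len_nonneg (x : X) : 0 ≤ len B m s x := by
  unfold len
  positivity

theorem len_pos (hs : B.IsSection m s) {x : X} : 0 < len B m s x ↔ x ∈ Off A s := by
  rw [mem_Off hs (mem_ix A x)]
  unfold len
  constructor
  · intro h h0
    rw [h0] at h
    simp at h
  · intro h
    have := norm_pos_iff.2 h
    positivity

theorem continuous_len (hs : B.IsSection m s) : Continuous (len B m s) := by
  refine continuous_of_charts A fun i => ⟨vt A (len B m s) i, (Sm_len hs i).continuousOn, ?_⟩
  intro x hx
  unfold vt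
  rw [(A.c i).left_inv hx]

theorem isOpen_Off (hs : B.IsSection m s) : IsOpen (Off A s) := by
  have h : Off A s = {x | 0 < len B m s x} := by
    ext x
    exact (len_pos hs).symm
  rw [h]
  exact isOpen_lt continuous_const (continuous_len hs)

theorem isOpen_Ou (hs : B.IsSection m s) (i : ι) : IsOpen (Ou A s i) :=
  (A.c i).symm.isOpen_inter_preimage (isOpen_Off hs)

theorem st_ne {i : ι} {z : E n} (hz : z ∈ Ou A s i) : st A s i z ≠ 0 :=
  hz.2 i ((A.c i).map_target hz.1)

/-- `log |s|²` in the charts -/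
theorem psi_chart (hs : B.IsSection m s) {i : ι} {z : E n} (hz : z ∈ (A.c i).target) :
    psi B m s ((A.c i).symm z) = lp (m : ℝ) (B.wt i) (st A s i) z := by
  unfold psi lp
  rw [← vt_len hs i hz]
  rfl

/-- `log |s|²` is continuous on the complement of the zero set. -/
theorem continuousAt_psi (hs : B.IsSection m s) {x : X} (hx : x ∈ Off A s) :
    ContinuousAt (psi B m s) x :=
  (continuous_len hs).continuousAt.log ((len_pos hs).2 hx).ne'

/-- a section that is holomorphic has vanishing `∂̄` in the charts -/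
theorem pb_st (hol : B.IsHol s) (i : ι) {z : E n}
    (hz : z ∈ (A.c i).target) (j : Ix n) : pb j (st A s i) z = 0 :=
  d01_of_diff ((hol i).differentiableAt ((A.c i).open_target.mem_nhds hz)) (e j)

theorem Ou_subset (i : ι) : Ou A s i ⊆ (A.c i).target := fun _ h => h.1

/-- a holomorphic function is smooth and has vanishing `∂̄` -/
theorem HolOff.smooth {f : X → ℂ} (hf : HolOff A s f) (i : ι) :
    ContDiffOn ℝ ∞ (f ∘ (A.c i).symm) (Ou A s i) := (hf i).restrict_scalars ℝ

theorem HolOff.pb {f : X → ℂ} (hf : HolOff A s f) (hs : B.IsSection m s) (i : ι) {z : E n}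
    (hz : z ∈ Ou A s i) (j : Ix n) : pb j (f ∘ (A.c i).symm) z = 0 :=
  d01_of_diff (((hf i).contDiffAt ((isOpen_Ou hs i).mem_nhds hz)).differentiableAt (by simp)) (e j)

theorem SmOff_nq {f : X → ℂ} (hf : HolOff A s f) : SmOff A s (fun x => ‖f x‖ ^ 2) :=
  fun i => (hf.smooth i).norm_sq ℝ

theorem SmOff_one : SmOff A s (fun _ => 1) := fun _ => contDiffOn_const

end Pool.Agent.CIS
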