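import Pool.Agent.CIS.Defs

/-!
CIS module Ccn (size 4): manipulations of integral curves.
PROOF. `congr`: `ContinuousAt.congr`, `HasDerivAt.congr_of_eventuallyEq`, and `γ' τ = γ τ`
(`Filter.EventuallyEq.eq_of_nhds`). `shift`: composition with `u ↦ u - a` (`ContinuousAt.comp`,
`HasDerivAt.comp_sub_const` or `HasDerivAt.scomp`). `neg`: composition with `u ↦ -u`
(`HasDerivAt.comp_neg` or `scomp`). `glue`: value at `τ` is `γ₁ τ`. Continuity: the function coincides
with `γ₁` on `Set.Iic τ` and with `γ₂` on `Set.Ici τ` (at `τ` itself by `h`), so it is continuous within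
both (`ContinuousWithinAt.congr`), and `continuousAt_iff_continuous_left_right`. Derivative in the
chart `i`: `HasDerivWithinAt` on `Iic τ` and on `Ici τ` by `HasDerivWithinAt.congr` from
`(h1.2 i _).hasDerivWithinAt` and `(h2.2 i _).hasDerivWithinAt` (the velocities agree because
`γ₁ τ = γ₂ τ`), then `HasDerivWithinAt.union`, `Set.Iic_union_Ici`, `hasDerivWithinAt_univ`.
-/

open scoped ContDiff ComplexConjugate Topology
open Complex

namespace Pool.Agent.CIS

open Pool.Agent.DTW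

variable {n : ℕ} {X : Type*} [TopologicalSpace X] {ι : Type*} {A : Atlas n X ι}
  {V : ι → E n → E n} {γ γ' γ₁ γ₂ : ℝ → X} {τ : ℝ}

theorem IC.congr (hγ : IC A V γ τ) (h : γ =ᶠ[𝓝 τ] γ') : IC A V γ' τ := by
  have he : γ τ = γ' τ := h.eq_of_nhds
  refine ⟨hγ.1.congr h, fun i hi => ?_⟩
  rw [← he] at hi ⊢
  exact (hγ.2 i hi).congr_of_eventuallyEq (h.symm.fun_comp (A.c i))

theorem IC.shift {a : ℝ} (hγ : IC A V γ (τ - a)) : IC A V (fun u => γ (u - a)) τ := by
  refine ⟨?_, fun i hi => ?_⟩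
  · exact ContinuousAt.comp (f := fun u : ℝ => u - a) (g := γ) (x := τ) hγ.1
      (continuous_sub_right a).continuousAt
  · exact HasDerivAt.comp_sub_const τ a (hγ.2 i hi)

theorem IC.neg (hγ : IC A V γ (-τ)) : IC A (fun i z => -V i z) (fun u => γ (-u)) τ := by
  refine ⟨?_, fun i hi => ?_⟩
  · exact ContinuousAt.comp (f := fun u : ℝ => -u) (g := γ) (x := τ) hγ.1
      continuous_neg.continuousAt
  · have h := HasDerivAt.scomp (h := fun u : ℝ => -u) (h' := -1) τ (hγ.2 i hi) (hasDerivAt_neg τ)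
    simpa [Function.comp_def] using h

theorem IC.glue (h1 : IC A V γ₁ τ) (h2 : IC A V γ₂ τ) (h : γ₁ τ = γ₂ τ) :
    IC A V (fun u => if u ≤ τ then γ₁ u else γ₂ u) τ := by
  have e1 : Set.EqOn (fun u => if u ≤ τ then γ₁ u else γ₂ u) γ₁ (Set.Iic τ) := fun u hu =>
    if_pos hu
  have e2 : Set.EqOn (fun u => if u ≤ τ then γ₁ u else γ₂ u) γ₂ (Set.Ici τ) := by
    intro u hu
    by_cases h' : u ≤ τ
    · have hu' : u = τ := le_antisymm h' hu
      subst hu'
      simp [h]
    · exact if_neg h'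
  have ev : (fun u => if u ≤ τ then γ₁ u else γ₂ u) τ = γ₁ τ := if_pos le_rfl
  have ev2 : (fun u => if u ≤ τ then γ₁ u else γ₂ u) τ = γ₂ τ := by rw [ev, h]
  refine ⟨?_, fun i hi => ?_⟩
  · rw [continuousAt_iff_continuous_left_right]
    exact ⟨(h1.1.continuousWithinAt).congr e1 ev, (h2.1.continuousWithinAt).congr e2 ev2⟩
  · have hi1 : γ₁ τ ∈ (A.c i).source := by
      have := hi
      simp only [le_refl, if_true] at this
      exact this
    have hi2 : γ₂ τ ∈ (A.c i).source := h ▸ hi1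
    have d1 : HasDerivWithinAt (fun u => A.c i (if u ≤ τ then γ₁ u else γ₂ u))
        (V i (A.c i (γ₁ τ))) (Set.Iic τ) τ :=
      ((h1.2 i hi1).hasDerivWithinAt).congr (fun u hu => congrArg (A.c i) (e1 hu))
        (congrArg (A.c i) ev)
    have d2 : HasDerivWithinAt (fun u => A.c i (if u ≤ τ then γ₁ u else γ₂ u))
        (V i (A.c i (γ₁ τ))) (Set.Ici τ) τ := by
      rw [h]
      exact ((h2.2 i hi2).hasDerivWithinAt).congr (fun u hu => congrArg (A.c i) (e2 hu))
        (congrArg (A.c i) ev2)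
    have d3 := d1.union d2
    rw [Set.Iic_union_Ici, hasDerivWithinAt_univ] at d3
    have e3 : V i (A.c i (if τ ≤ τ then γ₁ τ else γ₂ τ)) = V i (A.c i (γ₁ τ)) := by
      simp
    show HasDerivAt (fun u => A.c i (if u ≤ τ then γ₁ u else γ₂ u))
      (V i (A.c i (if τ ≤ τ then γ₁ τ else γ₂ τ))) τ
    rw [e3]
    exact d3

end Pool.Agent.CIS
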