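import Pool.Agent.CIS.Defs

/-!
CIS module Chv (size 3): the velocity of a curve can be computed in one chart.
PROOF. `IC A V γ τ` is `⟨hγ, _⟩`. Let `j` with `γ τ ∈ (A.c j).source`. For `u` near `τ`,
`γ u ∈ (A.c i).source` (`hγ.eventually` and `(A.c i).open_source.mem_nhds hi`), so
`A.c j (γ u) = ph A i j (A.c i (γ u))` (`ph_chart`, DTW/Glo.lean). `ph A i j` is complex differentiable
at `A.c i (γ τ) ∈ Uo A i j` (`mem_Uo`, `contDiffOn_ph`, `isOpen_Uo`); restrict scalars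
(`HasFDerivAt.restrictScalars ℝ`), `HasFDerivAt.comp_hasDerivAt`, and `HasDerivAt.congr_of_eventuallyEq`.
The derivative is `fderiv ℂ (ph A i j) (A.c i (γ τ)) (V i (A.c i (γ τ))) = V j (A.c j (γ τ))` by `hV`.
-/

open scoped ContDiff ComplexConjugate Topology
open Complex

namespace Pool.Agent.CIS

open Pool.Agent.DTW

variable {n : ℕ} {X : Type*} [TopologicalSpace X] {ι : Type*} {A : Atlas n X ι}

theorem IC_of_chart {V : ι → E n → E n} {γ : ℝ → X} {τ : ℝ} {i : ι} (hγ : ContinuousAt γ τ)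
    (hi : γ τ ∈ (A.c i).source)
    (hd : HasDerivAt (fun u => A.c i (γ u)) (V i (A.c i (γ τ))) τ)
    (hV : ∀ j, γ τ ∈ (A.c j).source →
      fderiv ℂ (ph A i j) (A.c i (γ τ)) (V i (A.c i (γ τ))) = V j (A.c j (γ τ))) :
    IC A V γ τ := by
  refine ⟨hγ, fun j hj => ?_⟩
  have hz : A.c i (γ τ) ∈ Uo A i j := mem_Uo hi hj
  have h1 : ContDiffAt ℂ ∞ (ph A i j) (A.c i (γ τ)) :=
    (contDiffOn_ph A i j).contDiffAt ((isOpen_Uo A i j).mem_nhds hz)
  have h2 : HasFDerivAt (ph A i j) (fderiv ℂ (ph A i j) (A.c i (γ τ))) (A.c i (γ τ)) :=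
    (h1.differentiableAt (by simp)).hasFDerivAt
  have h3 := h2.restrictScalars ℝ
  have h4 : HasDerivAt (fun u => ph A i j (A.c i (γ u)))
      (fderiv ℂ (ph A i j) (A.c i (γ τ)) (V i (A.c i (γ τ)))) τ := by
    have := HasFDerivAt.comp_hasDerivAt (f := fun u => A.c i (γ u)) τ h3 hd
    exact this
  have h5 : (fun u => A.c j (γ u)) =ᶠ[𝓝 τ] fun u => ph A i j (A.c i (γ u)) := by
    have h6 : ∀ᶠ u in 𝓝 τ, γ u ∈ (A.c i).source :=
      hγ.eventually ((A.c i).open_source.mem_nhds hi)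
    filter_upwards [h6] with u hu
    exact (ph_chart hu).symm
  have h7 := h4.congr_of_eventuallyEq h5
  rw [hV j hj] at h7
  exact h7

end Pool.Agent.CIS
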