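import Pool.Agent.CIS.Defs

/-!
CIS module Cmp (size 4): the Levi matrix of `Φ(l)` for a function `Φ` of one real variable.
Everything is local calculus in `ℂ^(2n)`; see DTW/Base.lean, DTW/Comm.lean, DTW/Chg.lean and the
proof of `LM_log` in DTW/Chg.lean for the style. `cx w` is the complexification of `w`,
`pk k f = ∂f/∂z_k`, `pb k f = ∂f/∂z̄_k`, `LM w z k j = pk k (pb j (cx w)) z` (`LM_eq`, by rfl).
PROOF. `pk_comp`, `pb_comp`: `cx (Φ ∘ l)` has at `z` the real derivative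
`v ↦ ((deriv Φ (l z) * fderiv ℝ l z v : ℝ) : ℂ)` (chain rule `HasDerivAt.comp_hasFDerivAt` or
`HasDerivAt.scomp...`, then compose with `Complex.ofRealCLM`), and
`fderiv ℝ (cx l) z v = (fderiv ℝ l z v : ℂ)`; so
`fderiv ℝ (cx (Φ ∘ l)) z v = ((deriv Φ (l z) : ℝ) : ℂ) * fderiv ℝ (cx l) z v` for all `v`; unfold
`pk`, `d10` (or `pb`, `d01`) and `ring`.
`LM_comp`: by `pb_comp` on the open set `U`, `pb j (cx (Φ ∘ l))` coincides near `z` with the
product of `cx (deriv Φ ∘ l)` and `pb j (cx l)` (`pk_congr`); `pk` of a product is `pk_mul_at`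
(DTW/Key.lean; differentiability from `contDiffOn_pb`, `contDiffOn_cx`, `diffAt_of`); the first
factor is treated by `pk_comp` with `deriv Φ` in the place of `Φ` (`ContDiffOn ℝ ∞ (deriv Φ) T`
for the open set `T`: `ContDiffOn.deriv_of_isOpen`); finally `pb j (cx l) z = conj (pk j (cx l) z)`
(`pk_cx`).
-/

open scoped ContDiff ComplexConjugate Topology
open Complex

namespace Pool.Agent.CIS

open Pool.Agent.DTW

variable {n : ℕ} {U : Set (E n)} {l : E n → ℝ} {T : Set ℝ} {Φ : ℝ → ℝ} {z : E n}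

/-- real derivative of the composition -/
private theorem Cmp_fderiv (hU : IsOpen U) (hl : ContDiffOn ℝ ∞ l U) (hT : IsOpen T)
    (hlT : ∀ y ∈ U, l y ∈ T) (hΦ : ContDiffOn ℝ ∞ Φ T) (hz : z ∈ U) (v : E n) :
    fderiv ℝ (cx (fun y => Φ (l y))) z v
      = ((deriv Φ (l z) : ℝ) : ℂ) * fderiv ℝ (cx l) z v := by
  have hl1 : DifferentiableAt ℝ l z := (hl.contDiffAt (hU.mem_nhds hz)).differentiableAt (by simp)
  have hΦ1 : DifferentiableAt ℝ Φ (l z) :=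
    (hΦ.contDiffAt (hT.mem_nhds (hlT z hz))).differentiableAt (by simp)
  have h1 : HasFDerivAt (fun y => Φ (l y)) (deriv Φ (l z) • fderiv ℝ l z) z :=
    hΦ1.hasDerivAt.comp_hasFDerivAt z hl1.hasFDerivAt
  have h2 : HasFDerivAt (cx (fun y => Φ (l y)))
      (Complex.ofRealCLM.comp (deriv Φ (l z) • fderiv ℝ l z)) z :=
    (Complex.ofRealCLM.hasFDerivAt).comp z h1
  have h3 : HasFDerivAt (cx l) (Complex.ofRealCLM.comp (fderiv ℝ l z)) z :=
    (Complex.ofRealCLM.hasFDerivAt).comp z hl1.hasFDerivAt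
  rw [h2.fderiv, h3.fderiv]
  simp

theorem pk_comp (hU : IsOpen U) (hl : ContDiffOn ℝ ∞ l U) (hT : IsOpen T)
    (hlT : ∀ y ∈ U, l y ∈ T) (hΦ : ContDiffOn ℝ ∞ Φ T) (hz : z ∈ U) (k : Ix n) :
    pk k (cx (fun y => Φ (l y))) z = ((deriv Φ (l z) : ℝ) : ℂ) * pk k (cx l) z := by
  unfold pk d10
  rw [Cmp_fderiv hU hl hT hlT hΦ hz, Cmp_fderiv hU hl hT hlT hΦ hz]
  ring

theorem pb_comp (hU : IsOpen U) (hl : ContDiffOn ℝ ∞ l U) (hT : IsOpen T)
    (hlT : ∀ y ∈ U, l y ∈ T) (hΦ : ContDiffOn ℝ ∞ Φ T) (hz : z ∈ U) (k : Ix n) :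
    pb k (cx (fun y => Φ (l y))) z = ((deriv Φ (l z) : ℝ) : ℂ) * pb k (cx l) z := by
  unfold pb d01
  rw [Cmp_fderiv hU hl hT hlT hΦ hz, Cmp_fderiv hU hl hT hlT hΦ hz]
  ring

theorem LM_comp (hU : IsOpen U) (hl : ContDiffOn ℝ ∞ l U) (hT : IsOpen T)
    (hlT : ∀ y ∈ U, l y ∈ T) (hΦ : ContDiffOn ℝ ∞ Φ T) (hz : z ∈ U) (k j : Ix n) :
    LM (fun y => Φ (l y)) z k j
      = ((deriv (deriv Φ) (l z) : ℝ) : ℂ) * (pk k (cx l) z * conj (pk j (cx l) z))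
        + ((deriv Φ (l z) : ℝ) : ℂ) * LM l z k j := by
  have hΦ' : ContDiffOn ℝ ∞ (deriv Φ) T := hΦ.deriv_of_isOpen hT (by simp)
  have h1 : pb j (cx (fun y => Φ (l y))) =ᶠ[𝓝 z]
      fun y => cx (fun x => deriv Φ (l x)) y * pb j (cx l) y := by
    filter_upwards [hU.mem_nhds hz] with y hy
    exact pb_comp hU hl hT hlT hΦ hy j
  have hc : ContDiffOn ℝ ∞ (cx (fun x => deriv Φ (l x))) U :=
    contDiffOn_cx (hΦ'.comp hl (fun y hy => hlT y hy))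
  have hcl := contDiffOn_cx hl
  have d1 := diffAt_of hU hc hz
  have d2 := diffAt_of hU (contDiffOn_pb hU hcl j) hz
  have h2 : pb j (cx l) z = conj (pk j (cx l) z) := by
    rw [pk_cx (diffAt_of hU hcl hz), Complex.conj_conj]
  rw [LM_eq, pk_congr h1, pk_mul_at d1 d2, pk_comp hU hl hT hlT hΦ' hz, LM_eq, h2]
  have h3 : cx (fun x => deriv Φ (l x)) z = ((deriv Φ (l z) : ℝ) : ℂ) := rfl
  rw [h3]
  ring

end Pool.Agent.CIS
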