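import Pool.Agent.CIS.Bas

/-!
CIS module Csv (size 4): conservation laws along integral curves of `hamX A f`.
PROOF. `re_d10`: for real `v`, `fderiv ℝ (cx v) z b = (fderiv ℝ v z b : ℂ)`, so
`d10 (cx v) z a = (Dv a - I Dv (I a)) / 2` has real part `Dv a / 2`.
`d10_add_d01`: unfold, `ring`.
`hasDerivAt_len`: let `i = ix A (γ τ)`, `z = A.c i (γ τ) ∈ (A.c i).target`. For `u` near `τ`
(`γ u ∈ (A.c i).source`), `len B m s (γ u) = vt A (len B m s) i (A.c i (γ u))` (`left_inv`). The function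
`vt A (len B m s) i` is smooth on the target (`Sm_len`), so the chain rule
(`HasFDerivAt.comp_hasDerivAt`) gives the derivative `fderiv ℝ (vt ..) z a`, `a = hamX A f i z`, equal to
`2 * (d10 (cx (vt ..)) z a).re` (`re_d10`). Near `z`, `vt A (len B m s) i = uu m (B.wt i) (st A s i)`
(`vt_len`); `d10_eq_sum`; `pk k (cx (uu ..)) z = cexp (-m w) * conj (s z) * DD m w k s z` (conjugate of
`pb_cx_uu` with `pb_st`, by `pk_cx`; the exponential is real, `len_real`). So `d10 .. = cexp (-m w) conj s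
∑ k, a k * DD .. = 0` by `hd`.
`hasDerivAt_fun`: the same with `g ∘ (A.c i).symm`, smooth near `z ∈ Ou A s i`; its real derivative
at `a` is `d10 + d01` (`d10_add_d01`) `= poisson + 0` (`d01_of_diff` or `HolOff.pb` and `d01_eq_sum`).
-/

open scoped ContDiff ComplexConjugate Topology
open Complex

namespace Pool.Agent.CIS

open Pool.Agent.DTW

variable {n : ℕ} {X : Type*} [TopologicalSpace X] {ι : Type*} {A : Atlas n X ι} {B : Bundle A}
  {m : ℤ} {s : ι → X → ℂ}

theorem re_d10 {v : E n → ℝ} {z : E n} (hv : DifferentiableAt ℝ v z) (a : E n) :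
    fderiv ℝ v z a = 2 * (d10 (cx v) z a).re := by
  have h := Complex.ofRealCLM.hasFDerivAt.comp z hv.hasFDerivAt
  have h2 : fderiv ℝ (cx v) z = Complex.ofRealCLM.comp (fderiv ℝ v z) := h.fderiv
  unfold d10
  rw [h2]
  simp only [ContinuousLinearMap.comp_apply, Complex.ofRealCLM_apply]
  simp
  ring

theorem d10_add_d01 (f : E n → ℂ) (z a : E n) : d10 f z a + d01 f z a = fderiv ℝ f z a := by
  unfold d10 d01
  ring

theorem hasDerivAt_len (hs : B.IsSection m s) (hol : B.IsHol s) {f : X → ℂ} {γ : ℝ → X} {τ : ℝ}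
    (hγ : IC A (hamX A f) γ τ)
    (hd : ∀ i, γ τ ∈ (A.c i).source → ∑ k : Ix n, hamX A f i (A.c i (γ τ)) k
      * DD (m : ℝ) (B.wt i) k (st A s i) (A.c i (γ τ)) = 0) :
    HasDerivAt (fun u => len B m s (γ u)) 0 τ := by
  have hi := mem_ix A (γ τ)
  set i := ix A (γ τ) with hidef
  set z := A.c i (γ τ) with hz
  have hzt : z ∈ (A.c i).target := (A.c i).map_source hi
  have hnt : (A.c i).target ∈ 𝓝 z := (A.c i).open_target.mem_nhds hzt
  have hv : DifferentiableAt ℝ (vt A (len B m s) i) z :=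
    ((Sm_len hs i).contDiffAt hnt).differentiableAt (by simp)
  have hc := hγ.2 i hi
  have hcomp := hv.hasFDerivAt.comp_hasDerivAt τ hc
  have hev : (fun u => len B m s (γ u)) =ᶠ[𝓝 τ]
      (vt A (len B m s) i ∘ fun u => A.c i (γ u)) := by
    have h1 : ∀ᶠ u in 𝓝 τ, γ u ∈ (A.c i).source :=
      hγ.1.eventually ((A.c i).open_source.mem_nhds hi)
    filter_upwards [h1] with u hu
    simp only [Function.comp_apply, vt]
    rw [(A.c i).left_inv hu]
  have hd10 : d10 (cx (vt A (len B m s) i)) z (hamX A f i z) = 0 := by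
    have hw : ContDiffOn ℝ ∞ (B.wt i) (A.c i).target := B.smooth i
    have hf : ContDiffOn ℝ ∞ (st A s i) (A.c i).target := hs.smooth i
    have hev2 : cx (vt A (len B m s) i) =ᶠ[𝓝 z] cx (uu (m : ℝ) (B.wt i) (st A s i)) := by
      filter_upwards [hnt] with y hy
      unfold cx
      rw [vt_len hs i hy]
    have hdu : DifferentiableAt ℝ (cx (uu (m : ℝ) (B.wt i) (st A s i))) z :=
      ((contDiffOn_cx (contDiffOn_uu hw hf)).contDiffAt hnt).differentiableAt (by simp)
    have h1 : d10 (cx (vt A (len B m s) i)) z (hamX A f i z)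
        = d10 (cx (uu (m : ℝ) (B.wt i) (st A s i))) z (hamX A f i z) := by
      unfold d10
      rw [hev2.fderiv_eq]
    rw [h1, d10_eq_sum]
    have h2 : ∀ k, pk k (cx (uu (m : ℝ) (B.wt i) (st A s i))) z
        = ((Real.exp (-((m : ℝ) * B.wt i z)) : ℝ) : ℂ) * conj (st A s i z)
          * DD (m : ℝ) (B.wt i) k (st A s i) z := by
      intro k
      rw [pk_cx hdu, pb_cx_uu (A.c i).open_target hw hf hzt, pb_st hol i hzt, len_real]
      simp only [map_mul, Complex.conj_ofReal, Complex.conj_conj, zero_mul, zero_add]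
      ring
    have h3 : ∑ k, hamX A f i z k * pk k (cx (uu (m : ℝ) (B.wt i) (st A s i))) z
        = ((Real.exp (-((m : ℝ) * B.wt i z)) : ℝ) : ℂ) * conj (st A s i z)
          * ∑ k, hamX A f i z k * DD (m : ℝ) (B.wt i) k (st A s i) z := by
      rw [Finset.mul_sum]
      refine Finset.sum_congr rfl fun k _ => ?_
      rw [h2 k]
      ring
    rw [h3, hd i hi, mul_zero]
  have hval : fderiv ℝ (vt A (len B m s) i) z (hamX A f i z) = 0 := by
    rw [re_d10 hv, hd10]
    simp
  have h4 : HasDerivAt (vt A (len B m s) i ∘ fun u => A.c i (γ u)) 0 τ := by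
    rw [← hval]
    exact hcomp
  exact h4.congr_of_eventuallyEq hev

theorem hasDerivAt_fun (hs : B.IsSection m s) {f g : X → ℂ} (hg : HolOff A s g) {γ : ℝ → X}
    {τ : ℝ} (hγ : IC A (hamX A f) γ τ) (hoff : γ τ ∈ Off A s)
    (hp : ∀ i, γ τ ∈ (A.c i).source →
      poisson (f ∘ (A.c i).symm) (g ∘ (A.c i).symm) (A.c i (γ τ)) = 0) :
    HasDerivAt (fun u => g (γ u)) 0 τ := by
  have hi := mem_ix A (γ τ)
  set i := ix A (γ τ) with hidef
  set z := A.c i (γ τ) with hz
  have hzt : z ∈ (A.c i).target := (A.c i).map_source hi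
  have hzO : z ∈ Ou A s i := by
    refine ⟨hzt, ?_⟩
    rw [hz, (A.c i).left_inv hi]
    exact hoff
  have hnt : Ou A s i ∈ 𝓝 z := (isOpen_Ou hs i).mem_nhds hzO
  have hv : DifferentiableAt ℝ (g ∘ (A.c i).symm) z :=
    ((hg.smooth i).contDiffAt hnt).differentiableAt (by simp)
  have hc := hγ.2 i hi
  have hcomp := hv.hasFDerivAt.comp_hasDerivAt τ hc
  have hev : (fun u => g (γ u)) =ᶠ[𝓝 τ]
      ((g ∘ (A.c i).symm) ∘ fun u => A.c i (γ u)) := by
    have h1 : ∀ᶠ u in 𝓝 τ, γ u ∈ (A.c i).source :=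
      hγ.1.eventually ((A.c i).open_source.mem_nhds hi)
    filter_upwards [h1] with u hu
    simp only [Function.comp_apply]
    rw [(A.c i).left_inv hu]
  have hval : fderiv ℝ (g ∘ (A.c i).symm) z (hamX A f i z) = 0 := by
    rw [← d10_add_d01]
    have h1 : d10 (g ∘ (A.c i).symm) z (hamX A f i z) = 0 := hp i hi
    have h2 : d01 (g ∘ (A.c i).symm) z (hamX A f i z) = 0 := by
      rw [d01_eq_sum]
      refine Finset.sum_eq_zero fun k _ => ?_
      rw [hg.pb hs i hzO k, mul_zero]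
    rw [h1, h2, add_zero]
  have h4 : HasDerivAt ((g ∘ (A.c i).symm) ∘ fun u => A.c i (γ u)) 0 τ := by
    rw [← hval]
    exact hcomp
  exact h4.congr_of_eventuallyEq hev

end Pool.Agent.CIS
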