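import Pool.Agent.CIS.Fwd

/-!
CIS module Glb (size 3): from a uniform time of existence on an invariant set to all times.
PROOF. `forward` for `V` gives `γ₂`. The curves `u ↦ γ (-u)` satisfy the hypothesis `H` for the field
`fun i z => -V i z` (`IC.neg`), so `forward` for `-V` gives `γ₁'`; `γ₁ u = γ₁' (-u)` satisfies
`IC A V γ₁ τ` for `τ < ε` (`IC.neg`, `neg_neg`), `γ₁ 0 = x`. Put
`γ u = if u ≤ 0 then γ₁ u else γ₂ u`. For `τ < 0` and `τ > 0`, `IC.congr`; for `τ = 0`, `IC.glue`.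
-/

open scoped ContDiff ComplexConjugate Topology
open Complex

namespace Pool.Agent.CIS

open Pool.Agent.DTW

variable {n : ℕ} {X : Type*} [TopologicalSpace X] {ι : Type*} {A : Atlas n X ι}
  {V : ι → E n → E n} {K : Set X} {ε : ℝ}

theorem global_curve (hε : 0 < ε) (H : ∀ x ∈ K, ∃ γ : ℝ → X, γ 0 = x ∧
      ∀ τ ∈ Set.Ioo (-ε) ε, IC A V γ τ ∧ γ τ ∈ K) {x : X} (hx : x ∈ K) :
    ∃ γ : ℝ → X, γ 0 = x ∧ ∀ τ, IC A V γ τ ∧ γ τ ∈ K := by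
  obtain ⟨γ₂, h20, h2⟩ := forward hε H hx
  have H' : ∀ x ∈ K, ∃ γ : ℝ → X, γ 0 = x ∧
      ∀ τ ∈ Set.Ioo (-ε) ε, IC A (fun i z => -V i z) γ τ ∧ γ τ ∈ K := by
    intro y hy
    obtain ⟨γ, h0, h⟩ := H y hy
    refine ⟨fun u => γ (-u), by simpa using h0, fun τ hτ => ?_⟩
    have hτ' : -τ ∈ Set.Ioo (-ε) ε := ⟨by linarith [hτ.2], by linarith [hτ.1]⟩
    exact ⟨IC.neg (h (-τ) hτ').1, (h (-τ) hτ').2⟩
  obtain ⟨γ₀, h10, h1⟩ := forward hε H' hx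
  have h1' : ∀ τ, τ < ε → IC A V (fun u => γ₀ (-u)) τ ∧ γ₀ (-τ) ∈ K := by
    intro τ hτ
    obtain ⟨ha, hb⟩ := h1 (-τ) (by linarith)
    refine ⟨?_, hb⟩
    have hc := IC.neg (V := fun i z => -V i z) (γ := γ₀) (τ := τ) ha
    simpa only [neg_neg] using hc
  refine ⟨fun u => if u ≤ 0 then γ₀ (-u) else γ₂ u, by simpa using h10, fun τ => ?_⟩
  rcases lt_trichotomy τ 0 with hτ | hτ | hτ
  · obtain ⟨ha, hb⟩ := h1' τ (hτ.trans hε)
    refine ⟨IC.congr ha ?_, ?_⟩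
    · filter_upwards [Iio_mem_nhds hτ] with u hu
      rw [if_pos (le_of_lt hu)]
    · simp only [if_pos hτ.le]
      exact hb
  · subst hτ
    obtain ⟨ha, hb⟩ := h1' 0 hε
    obtain ⟨hc, -⟩ := h2 0 (by linarith)
    refine ⟨IC.glue (γ₁ := fun u => γ₀ (-u)) ha hc (by simp [h10, h20]), ?_⟩
    simpa using hb
  · obtain ⟨hc, hd⟩ := h2 τ (by linarith)
    refine ⟨IC.congr hc ?_, ?_⟩
    · filter_upwards [Ioi_mem_nhds hτ] with u hu
      rw [if_neg (not_le_of_gt hu)]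
    · simp only [if_neg (not_le_of_gt hτ)]
      exact hd

end Pool.Agent.CIS
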