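import Pool.Agent.CIS.StB

/-!
CIS module StC (size 4): two holomorphic functions on `Off A s` Poisson commute.
PROOF. Fix `z ∈ Ou A s i`, `x = (A.c i).symm z`, `c = psi B m s x - 1`, `hW = Sm_W hs hf`,
`v = ext B m s (cut c) (fun x => ‖g x‖ ^ 2)`, `B₁ = triv A (W B m s c f) hW`.
(1) For `z' ∈ Ou A s i'` with `c - 1 < lp m (B.wt i') (st A s i') z'`: `P_triv` with
`u = fun x => ‖g x‖ ^ 2` (`SmOff_nq`; `hker` from `ker_of_hol`). By `ham_psi` (module StB) divided by `s`,
`∑ k, a k * p k = 0`; `LM (vt A u i') z' k j = γ k * conj (γ j)`, `γ k = pk k (g ∘ (A.c i').symm) z'`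
(`LM_nq`, `vt A u i' = nq (g ∘ (A.c i').symm)` by rfl). So
`P B₁ v = cut c t * Complex.normSq (∑ k, a k γ k) ≥ 0`.
(2), (3) as in module StB: `P B₁ v = 0` on `X`, and at `x` `cut c t > 0` (`cut_pos`), so
`∑ k, a k γ k = 0`. This is the Poisson bracket: `d10_eq_sum` (DTW/Base.lean), `ham f z k
= sg k * d10 f z (e k.swap) = a k`.
-/

open scoped ContDiff ComplexConjugate Topology
open Complex MeasureTheory

namespace Pool.Agent.CIS

open Pool.Agent.DTW

variable {n : ℕ} {X : Type*} [TopologicalSpace X] {ι : Type*} {A : Atlas n X ι} {B : Bundle A}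
  {m : ℤ} {s : ι → X → ℂ} [MeasurableSpace X] [BorelSpace X] [T2Space X] [CompactSpace X]
  {μ : Measure X}

private theorem stc_P (hμ : A.IsVolume μ) (hsp : B.Semipositive) (hq : Para B μ)
    (hs : B.IsSection m s) (hol : B.IsHol s) {f g : X → ℂ} (hf : HolOff A s f)
    (hg : HolOff A s g) {c : ℝ} (hW : Sm A (W B m s c f)) {i : ι} {z : E n}
    (hz : z ∈ Ou A s i) (hc : c - 1 < lp (m : ℝ) (B.wt i) (st A s i) z) :
    P (triv A (W B m s c f) hW) (ext B m s (cut c) fun x => ‖g x‖ ^ 2) ((A.c i).symm z)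
      = cut c (lp (m : ℝ) (B.wt i) (st A s i) z)
        * Complex.normSq (∑ k : Ix n, aa A f i z k * pk k (g ∘ (A.c i).symm) z) := by
  have h := P_triv hs hol hf (u := fun x => ‖g x‖ ^ 2) (SmOff_nq hg) hW hz hc
    (fun j => ker_of_hol hμ hsp hq hs hol hf hz j) _ _ rfl rfl _ rfl
  have h0 := ham_psi hμ hsp hq hs hol hf hz
  have h1 : ∑ k : Ix n, aa A f i z k * (DD (m : ℝ) (B.wt i) k (st A s i) z / st A s i z) = 0 := by
    have h2 : ∑ k : Ix n, aa A f i z k * (DD (m : ℝ) (B.wt i) k (st A s i) z / st A s i z)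
        = (∑ k : Ix n, aa A f i z k * DD (m : ℝ) (B.wt i) k (st A s i) z) / st A s i z := by
      rw [Finset.sum_div]
      refine Finset.sum_congr rfl fun k _ => ?_
      ring
    rw [h2, h0, zero_div]
  have h3 : ∀ k j : Ix n, LM (vt A (fun x => ‖g x‖ ^ 2) i) z k j
      = pk k (g ∘ (A.c i).symm) z * conj (pk j (g ∘ (A.c i).symm) z) := fun k j =>
    LM_nq (isOpen_Ou hs i) (hg.smooth i) (fun y hy j => hg.pb hs i hy j) hz k j
  rw [h]
  simp only [h1, h3, map_zero, zero_mul, mul_zero, add_zero, zero_add]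
  have h4 : ∑ k : Ix n, ∑ j : Ix n, aa A f i z k * conj (aa A f i z j)
      * (pk k (g ∘ (A.c i).symm) z * conj (pk j (g ∘ (A.c i).symm) z))
      = ((Complex.normSq (∑ k : Ix n, aa A f i z k * pk k (g ∘ (A.c i).symm) z) : ℝ) : ℂ) := by
    rw [← Complex.mul_conj, map_sum, Finset.sum_mul_sum]
    refine Finset.sum_congr rfl fun k _ => Finset.sum_congr rfl fun j _ => ?_
    rw [map_mul]
    ring
  rw [h4, ← Complex.ofReal_mul, Complex.ofReal_re]

theorem poisson_zero (hμ : A.IsVolume μ) (hsp : B.Semipositive) (hq : Para B μ)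
    (hs : B.IsSection m s) (hol : B.IsHol s) {f g : X → ℂ} (hf : HolOff A s f)
    (hg : HolOff A s g) {i : ι} {z : E n} (hz : z ∈ Ou A s i) :
    poisson (f ∘ (A.c i).symm) (g ∘ (A.c i).symm) z = 0 := by
  set x : X := (A.c i).symm z with hx
  set c : ℝ := psi B m s x - 1 with hcdef
  have hW : Sm A (W B m s c f) := Sm_W hs hf
  have hv : Sm A (ext B m s (cut c) fun x => ‖g x‖ ^ 2) :=
    Sm_ext hs (contDiff_cut c) (fun y hy => cut_zero hy) (SmOff_nq hg)
  have hnn : ∀ y, 0 ≤ P (triv A (W B m s c f) hW) (ext B m s (cut c) fun x => ‖g x‖ ^ 2) y := by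
    intro y
    by_cases hy : y ∈ Off A s ∧ c - 1 < psi B m s y
    · have hi := mem_ix A y
      have hz' : A.c (ix A y) y ∈ Ou A s (ix A y) := by
        refine ⟨(A.c (ix A y)).map_source hi, ?_⟩
        rw [(A.c (ix A y)).left_inv hi]
        exact hy.1
      have hc' : c - 1 < lp (m : ℝ) (B.wt (ix A y)) (st A s (ix A y)) (A.c (ix A y) y) := by
        rw [← psi_chart hs hz'.1, (A.c (ix A y)).left_inv hi]
        exact hy.2
      have h := stc_P hμ hsp hq hs hol hf hg hW hz' hc'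
      rw [(A.c (ix A y)).left_inv hi] at h
      rw [h]
      exact mul_nonneg (cut_nonneg _ _) (Complex.normSq_nonneg _)
    · refine le_of_eq (P_zero_near _ (ext_near hs (c := c) (fun t ht => cut_zero ht) ?_)).symm
      intro hyO
      by_contra hlt
      exact hy ⟨hyO, by linarith⟩
  have h0 := zero_of_integral hμ (continuous_P _ hv) hnn (int_P hμ _ hv) x
  have ht : lp (m : ℝ) (B.wt i) (st A s i) z = c + 1 := by
    rw [← psi_chart hs hz.1, hcdef]
    ring
  have h1 := stc_P hμ hsp hq hs hol hf hg hW hz (by rw [ht]; linarith)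
  rw [← hx, h0] at h1
  have h2 : 0 < cut c (lp (m : ℝ) (B.wt i) (st A s i) z) := cut_pos (by rw [ht]; linarith)
  have h3 : Complex.normSq (∑ k : Ix n, aa A f i z k * pk k (g ∘ (A.c i).symm) z) = 0 := by
    rcases mul_eq_zero.1 h1.symm with h | h
    · exact absurd h h2.ne'
    · exact h
  have h4 := Complex.normSq_eq_zero.1 h3
  unfold poisson
  rw [d10_eq_sum]
  exact h4

end Pool.Agent.CIS
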