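import Pool.Agent.CIS.Loc
import Pool.Agent.CIS.Csv
import Pool.Agent.CIS.Glb
import Pool.Agent.CIS.StC

/-!
CIS module Cpl (size 4): completeness.
PROOF. `K = {y | len B m s y = len B m s x}` is closed (`continuous_len`), hence compact, and contained
in `Off A s` (`len_pos`). For `x₀ ∈ K` `local_curves` gives `N x₀ ∈ 𝓝 x₀`, `ε x₀ > 0`; finitely many `N`
cover `K` (`IsCompact.elim_nhds_subcover`); `ε` = minimum of the `ε x₀` of the cover
(`Finset.exists_min_image`, or induction; if `K` were empty nothing to do, but `x ∈ K`). For `y ∈ K` the curve `γ`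
with `γ 0 = y` satisfies on `(-ε, ε)`: the derivative of `len B m s (γ τ)` is `0` (`hasDerivAt_len`; the
hypothesis `hd` from `ham_psi` of StB: `hamX A f i z k = aa A f i z k` by rfl, and
`A.c i (γ τ) ∈ Ou A s i`), so `len` is constant on the interval
(`Convex.is_const_of_fderivWithin_eq_zero`, or `IsOpen.is_const_of_deriv_eq_zero` with
`isPreconnected_Ioo`), equal to `len B m s y`: `γ τ ∈ K`. `global_curve`. For `g` holomorphic, the
derivative of `g (γ τ)` is `0` for all `τ` (`hasDerivAt_fun`, `poisson_zero`), so `g (γ τ) = g (γ 0)`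
(`is_const_of_deriv_eq_zero`).
-/

open scoped ContDiff ComplexConjugate Topology
open Complex MeasureTheory

namespace Pool.Agent.CIS

open Pool.Agent.DTW

variable {n : ℕ} {X : Type*} [TopologicalSpace X] {ι : Type*} {A : Atlas n X ι} {B : Bundle A}
  {m : ℤ} {s : ι → X → ℂ} [MeasurableSpace X] [BorelSpace X] [T2Space X] [CompactSpace X]
  {μ : Measure X}

theorem complete (hμ : A.IsVolume μ) (hsp : B.Semipositive) (hq : Para B μ)
    (hs : B.IsSection m s) (hol : B.IsHol s) {f : X → ℂ} (hf : HolOff A s f) {x : X}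
    (hx : x ∈ Off A s) :
    ∃ γ : ℝ → X, γ 0 = x ∧ ∀ τ, IC A (hamX A f) γ τ ∧ γ τ ∈ Off A s ∧
      len B m s (γ τ) = len B m s x ∧ ∀ g : X → ℂ, HolOff A s g → g (γ τ) = g x := by
  have hKoff : ∀ y, len B m s y = len B m s x → y ∈ Off A s := by
    intro y hy
    refine (len_pos hs).1 ?_
    rw [hy]
    exact (len_pos hs).2 hx
  have hKc : IsCompact {y | len B m s y = len B m s x} :=
    (isClosed_eq (continuous_len hs) continuous_const).isCompact
  have hOu : ∀ {γ : ℝ → X} {τ : ℝ} {i : ι}, γ τ ∈ (A.c i).source → γ τ ∈ Off A s →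
      A.c i (γ τ) ∈ Ou A s i := by
    intro γ τ i hi h2
    refine ⟨(A.c i).map_source hi, ?_⟩
    rw [(A.c i).left_inv hi]
    exact h2
  have hlen : ∀ (γ : ℝ → X) (τ : ℝ), IC A (hamX A f) γ τ → γ τ ∈ Off A s →
      HasDerivAt (fun u => len B m s (γ u)) 0 τ := by
    intro γ τ h1 h2
    exact hasDerivAt_len hs hol h1 fun i hi => ham_psi hμ hsp hq hs hol hf (hOu hi h2)
  choose! N hN ε hε H using fun x₀ (hx₀ : x₀ ∈ Off A s) => local_curves (A := A) hs hf hx₀
  obtain ⟨t, htK, hcov⟩ := hKc.elim_nhds_subcover N (fun y hy => hN y (hKoff y hy))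
  have hne : t.Nonempty := by
    have h := hcov (show x ∈ {y | len B m s y = len B m s x} from rfl)
    simp only [Set.mem_iUnion] at h
    obtain ⟨y, hy, -⟩ := h
    exact ⟨y, hy⟩
  obtain ⟨y₀, hy₀, hmin⟩ := Finset.exists_min_image t ε hne
  have hε0 : 0 < ε y₀ := hε y₀ (hKoff y₀ (htK y₀ hy₀))
  have HK : ∀ y ∈ {y | len B m s y = len B m s x}, ∃ γ : ℝ → X, γ 0 = y ∧
      ∀ τ ∈ Set.Ioo (-(ε y₀)) (ε y₀), IC A (hamX A f) γ τ ∧
        γ τ ∈ {y | len B m s y = len B m s x} := by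
    intro y hy
    have h := hcov hy
    simp only [Set.mem_iUnion] at h
    obtain ⟨y', hy', hyN⟩ := h
    obtain ⟨γ, hγ0, hγ⟩ := H y' (hKoff y' (htK y' hy')) y hyN
    have hle := hmin y' hy'
    have hsub : ∀ τ ∈ Set.Ioo (-(ε y₀)) (ε y₀), τ ∈ Set.Ioo (-(ε y')) (ε y') :=
      fun τ hτ => ⟨by linarith [hτ.1], by linarith [hτ.2]⟩
    refine ⟨γ, hγ0, fun τ hτ => ⟨(hγ τ (hsub τ hτ)).1, ?_⟩⟩
    have hd : ∀ u ∈ Set.Ioo (-(ε y₀)) (ε y₀),
        HasDerivAt (fun u => len B m s (γ u)) 0 u := fun u hu =>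
      hlen γ u (hγ u (hsub u hu)).1 (hγ u (hsub u hu)).2
    have hc : (fun u => len B m s (γ u)) τ = (fun u => len B m s (γ u)) 0 :=
      isOpen_Ioo.is_const_of_deriv_eq_zero isPreconnected_Ioo
        (fun u hu => (hd u hu).differentiableAt.differentiableWithinAt)
        (fun u hu => (hd u hu).deriv) hτ ⟨by linarith, hε0⟩
    simp only [hγ0] at hc
    show len B m s (γ τ) = len B m s x
    rw [hc]
    exact hy
  obtain ⟨γ, hγ0, hγ⟩ := global_curve hε0 HK (show x ∈ {y | len B m s y = len B m s x} from rfl)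
  refine ⟨γ, hγ0, fun τ => ⟨(hγ τ).1, hKoff _ (hγ τ).2, (hγ τ).2, fun g hg => ?_⟩⟩
  have hd : ∀ u, HasDerivAt (fun u => g (γ u)) 0 u := by
    intro u
    have hoff := hKoff _ (hγ u).2
    exact hasDerivAt_fun hs hg (hγ u).1 hoff fun i hi =>
      poisson_zero hμ hsp hq hs hol hf hg (hOu hi hoff)
  have hc := is_const_of_deriv_eq_zero (fun u => (hd u).differentiableAt) (fun u => (hd u).deriv)
    τ 0
  simp only [hγ0] at hc
  exact hc

end Pool.Agent.CIS
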