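import Pool.Agent.DTW.Main

/-!
CIS: the holomorphic functions on the complement of the divisor of a section of a power of a
hermitian semipositive parabolic line bundle form a complete integrable system. Definitions.
-/

open scoped ContDiff ComplexConjugate Topology
open Complex

namespace Pool.Agent.CIS

open Pool.Agent.DTW

variable {n : ℕ} {X : Type*} [TopologicalSpace X] {ι : Type*}

/-- The Hamiltonian vector field of the holomorphic function `f` on an open set of `ℂ^(2n)`:
`S (ham f z) a = ∂f(a)` for all `a`. -/
noncomputable def ham (f : E n → ℂ) (z : E n) : E n := fun k => sg k * d10 f z (e k.swap)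

/-- The Poisson bracket `{f, g} = ∂g(ham f)`. -/
noncomputable def poisson (f g : E n → ℂ) (z : E n) : ℂ := d10 g z (ham f z)

/-- The complement of the zero set of the section `s`. -/
def Off (A : Atlas n X ι) (s : ι → X → ℂ) : Set X := {x | ∀ i, x ∈ (A.c i).source → s i x ≠ 0}

/-- The complement of the zero set of the section `s` in the coordinates of the chart `i`. -/
def Ou (A : Atlas n X ι) (s : ι → X → ℂ) (i : ι) : Set (E n) :=
  {z | z ∈ (A.c i).target ∧ (A.c i).symm z ∈ Off A s}

/-- `f` is a holomorphic function on the complement of the zero set of the section `s`. -/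
def HolOff (A : Atlas n X ι) (s : ι → X → ℂ) (f : X → ℂ) : Prop :=
  ∀ i, ContDiffOn ℂ ∞ (f ∘ (A.c i).symm) (Ou A s i)

/-- The curve `γ` is continuous at the time `τ` and has there the velocity given, in every chart,
by the vector field `V`. -/
def IC (A : Atlas n X ι) (V : ι → E n → E n) (γ : ℝ → X) (τ : ℝ) : Prop :=
  ContinuousAt γ τ ∧ ∀ i, γ τ ∈ (A.c i).source →
    HasDerivAt (fun u => A.c i (γ u)) (V i (A.c i (γ τ))) τ

/-- The Hamiltonian vector field of the function `f` on `X`, in the charts. -/
noncomputable def hamX (A : Atlas n X ι) (f : X → ℂ) (i : ι) : E n → E n :=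
  ham (f ∘ (A.c i).symm)

/-- `log |s|²` on the complement of the zero set -/
noncomputable def psi {A : Atlas n X ι} (B : Bundle A) (m : ℤ) (s : ι → X → ℂ) (x : X) : ℝ :=
  Real.log (len B m s x)

/-- `log |s|²` in the coordinates of a chart with weight `w` -/
noncomputable def lp (m : ℝ) (w : E n → ℝ) (s : E n → ℂ) (z : E n) : ℝ := Real.log (uu m w s z)

/-- `|f|²` -/
noncomputable def nq (f : E n → ℂ) (z : E n) : ℝ := ‖f z‖ ^ 2

open Classical in
/-- the function `Ψ(log |s|²) u` extended by zero -/
noncomputable def ext {A : Atlas n X ι} (B : Bundle A) (m : ℤ) (s : ι → X → ℂ) (Ψ : ℝ → ℝ)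
    (u : X → ℝ) (x : X) : ℝ := if x ∈ Off A s then Ψ (psi B m s x) * u x else 0

/-- `u` is smooth on the complement of the zero set of `s` -/
def SmOff (A : Atlas n X ι) (s : ι → X → ℂ) (u : X → ℝ) : Prop :=
  ∀ i, ContDiffOn ℝ ∞ (vt A u i) (Ou A s i)

/-- convex cut-off function -/
noncomputable def cut (c x : ℝ) : ℝ := (x - c) * expNegInvGlue (x - c)

/-- cut-off function -/
noncomputable def cot (c x : ℝ) : ℝ := Real.smoothTransition (x - c + 2)

/-- The trivial bundle with weight `v`. -/
def triv (A : Atlas n X ι) (v : X → ℝ) (hv : Sm A v) : Bundle A where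
  g := fun _ _ _ => 1
  w := fun _ => v
  ne := fun _ _ _ _ _ => one_ne_zero
  mul := fun _ _ _ _ _ _ _ => one_mul 1
  hol := fun _ _ => contDiffOn_const
  smooth := hv
  trans := fun _ _ _ _ _ => by simp

end Pool.Agent.CIS
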