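import Pool.Agent.CIS.Defs

/-!
CIS module Dim (size 4): linear algebra of the symplectic form `S` of `ℂ^(2n)`.
PROOF. Let `a : Fin n → E n` be linearly independent. The map `T v = (S (a j) v)_j : E n → (Fin n → ℂ)`
is complex linear (`S_eq`). `dim_surj`: `T` is surjective: if not, the range is a proper subspace of
`Fin n → ℂ` and some nonzero `c` satisfies `∑ j, c j * S (a j) v = 0` for all `v`
(`Submodule.exists_le_ker_of_lt_top` or `Submodule.exists_dual_map_eq_bot...`: a nonzero linear form on
`Fin n → ℂ` vanishing on the range; its coordinates are `c j = φ (Pi.single j 1)`), so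
`S (∑ j, c j • a j) v = 0` for all `v`, so `∑ j, c j • a j = 0` (`S_single`: `S b (e k) = -sg k * b k.swap`),
so `c = 0`, contradiction. `dim_span`: by rank-nullity (`LinearMap.finrank_range_add_finrank_ker`),
`finrank (ker T) = 2 n - n = n` (`finrank ℂ (E n) = 2 n`: `Module.finrank_fintype_fun_eq_card`,
`Fintype.card_sum`). The span `W` of `a` has `finrank W = n` (`finrank_span_eq_card`) and `W ≤ ker T` by
isotropy; so `W = ker T` (`Submodule.eq_of_le_of_finrank_eq`). `dim_indep`: if `∑ c j a j = 0` then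
`∑ c j S (a j) v = 0` for all `v`; choose `v` with `S (a j) v = conj (c j)`: `∑ |c j|² = 0`
(`Fintype.linearIndependent_iff`).
-/

open scoped ContDiff ComplexConjugate Topology
open Complex

namespace Pool.Agent.CIS

open Pool.Agent.DTW

variable {n : ℕ}

/-- the map `v ↦ (S (a j) v)_j` -/
private noncomputable def dimT (a : Fin n → E n) : E n →ₗ[ℂ] (Fin n → ℂ) where
  toFun v j := S (a j) v
  map_add' u v := by
    funext j
    simp only [Pi.add_apply]
    rw [S_eq, S_eq, S_eq, ← Finset.sum_add_distrib]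
    refine Finset.sum_congr rfl fun k _ => ?_
    rw [Pi.add_apply]
    ring
  map_smul' c v := by
    funext j
    simp only [Pi.smul_apply, smul_eq_mul, RingHom.id_apply]
    rw [S_eq, S_eq, Finset.mul_sum]
    refine Finset.sum_congr rfl fun k _ => ?_
    rw [Pi.smul_apply, smul_eq_mul]
    ring

private theorem dimT_apply (a : Fin n → E n) (v : E n) (j : Fin n) : dimT a v j = S (a j) v := rfl

private theorem dim_sum (a : Fin n → E n) (c : Fin n → ℂ) (v : E n) :
    S (∑ j, c j • a j) v = ∑ j, c j * S (a j) v := by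
  simp only [S_eq, Finset.mul_sum]
  rw [Finset.sum_comm]
  refine Finset.sum_congr rfl fun k _ => ?_
  rw [Finset.sum_apply, Finset.mul_sum, Finset.sum_mul]
  refine Finset.sum_congr rfl fun j _ => ?_
  rw [Pi.smul_apply, smul_eq_mul]
  ring

private theorem dim_zero {b : E n} (h : ∀ v, S b v = 0) : b = 0 := by
  funext k
  have h1 := h (e k.swap)
  rw [S_single, Sum.swap_swap] at h1
  have h2 := sg_sq k.swap
  have h3 : sg k.swap ≠ 0 := by
    intro h0
    rw [h0] at h2
    simp at h2
  rcases mul_eq_zero.1 h1 with h4 | h4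
  · exact absurd (neg_eq_zero.1 h4) h3
  · exact h4

theorem dim_surj {a : Fin n → E n} (ha : LinearIndependent ℂ a) (b : Fin n → ℂ) :
    ∃ v : E n, ∀ j, S (a j) v = b j := by
  by_contra hcon
  push Not at hcon
  have hlt : LinearMap.range (dimT a) < ⊤ := by
    rw [lt_top_iff_ne_top]
    intro htop
    have hb : b ∈ LinearMap.range (dimT a) := by
      rw [htop]
      trivial
    obtain ⟨v, hv⟩ := hb
    obtain ⟨j, hj⟩ := hcon v
    exact hj (by rw [← dimT_apply, hv])
  obtain ⟨φ, hφ, hle⟩ := Submodule.exists_le_ker_of_lt_top _ hlt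
  have hφc : ∀ x : Fin n → ℂ, φ x = ∑ j, x j * φ (Pi.single j 1) := by
    intro x
    conv_lhs => rw [LinearMap.pi_apply_eq_sum_univ φ x]
    refine Finset.sum_congr rfl fun j _ => ?_
    rw [smul_eq_mul]
    congr 2
    funext i
    rw [Pi.single_apply]
    simp only [eq_comm]
  have hz : ∑ j, φ (Pi.single j 1) • a j = 0 := by
    refine dim_zero fun v => ?_
    rw [dim_sum]
    have h1 : φ (dimT a v) = 0 := hle ⟨v, rfl⟩
    rw [hφc] at h1
    rw [← h1]
    refine Finset.sum_congr rfl fun j _ => ?_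
    rw [dimT_apply, mul_comm]
  have h0 := Fintype.linearIndependent_iff.1 ha _ hz
  apply hφ
  refine LinearMap.ext fun x => ?_
  rw [hφc]
  simp [h0]

theorem dim_span {a : Fin n → E n} (ha : LinearIndependent ℂ a) (hi : ∀ j k, S (a j) (a k) = 0)
    {v : E n} (hv : ∀ j, S (a j) v = 0) : ∃ c : Fin n → ℂ, v = ∑ j, c j • a j := by
  have hsurj : LinearMap.range (dimT a) = ⊤ := by
    rw [LinearMap.range_eq_top]
    intro b
    obtain ⟨w, hw⟩ := dim_surj ha b
    exact ⟨w, funext fun j => by rw [dimT_apply, hw j]⟩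
  have hfr := LinearMap.finrank_range_add_finrank_ker (dimT a)
  rw [hsurj, finrank_top, Module.finrank_fin_fun] at hfr
  have hE : Module.finrank ℂ (E n) = n + n := by
    rw [Module.finrank_fintype_fun_eq_card, Fintype.card_sum, Fintype.card_fin]
  rw [hE] at hfr
  have hle : Submodule.span ℂ (Set.range a) ≤ LinearMap.ker (dimT a) := by
    rw [Submodule.span_le]
    rintro _ ⟨k, rfl⟩
    rw [SetLike.mem_coe, LinearMap.mem_ker]
    funext j
    rw [dimT_apply, hi j k]
    rfl
  have hsp : Module.finrank ℂ (Submodule.span ℂ (Set.range a)) = n := by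
    rw [finrank_span_eq_card ha, Fintype.card_fin]
  have heq : Submodule.span ℂ (Set.range a) = LinearMap.ker (dimT a) := by
    refine Submodule.eq_of_le_of_finrank_eq hle ?_
    rw [hsp]
    omega
  have hvm : v ∈ Submodule.span ℂ (Set.range a) := by
    rw [heq, LinearMap.mem_ker]
    funext j
    rw [dimT_apply, hv j]
    rfl
  obtain ⟨c, hc⟩ := (Submodule.mem_span_range_iff_exists_fun ℂ).1 hvm
  exact ⟨c, hc.symm⟩

theorem dim_indep {a : Fin n → E n} (h : ∀ b : Fin n → ℂ, ∃ v : E n, ∀ j, S (a j) v = b j) :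
    LinearIndependent ℂ a := by
  rw [Fintype.linearIndependent_iff]
  intro c hc
  obtain ⟨v, hv⟩ := h fun j => conj (c j)
  have h1 : ∑ j, c j * S (a j) v = 0 := by
    rw [← dim_sum, hc, S_eq]
    simp
  have h2 : ∑ j, ‖c j‖ ^ 2 = 0 := by
    have h3 : ((∑ j, ‖c j‖ ^ 2 : ℝ) : ℂ) = 0 := by
      rw [← h1]
      push_cast
      refine Finset.sum_congr rfl fun j _ => ?_
      rw [hv j, Complex.mul_conj, Complex.normSq_eq_norm_sq]
      push_cast
      rfl
    exact_mod_cast h3
  intro j
  have h4 := (Finset.sum_eq_zero_iff_of_nonneg (fun i _ => sq_nonneg ‖c i‖)).1 h2 j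
    (Finset.mem_univ j)
  exact norm_eq_zero.1 (pow_eq_zero_iff (two_ne_zero)|>.1 h4)

end Pool.Agent.CIS
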