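import Pool.Agent.CIS.Bas

/-!
CIS module Ext (size 4): `ext B m s Ψ u` is `Ψ(log |s|²) u` on `Off A s` (where `s ≠ 0`), and `0` at
the zeros of `s`; if `Ψ = 0` on `(-∞, c]` and `u` is smooth on `Off A s` it is smooth on `X`.
PROOF. `ext_chart`: `(A.c i).symm z ∈ Off A s` (`hz.2`), `psi_chart` (module Bas).
`ext_near`: `len B m s x = 0 < exp c` if `x ∉ Off A s` (`len_pos`, `len_nonneg`), and
`len B m s x < exp c` if `x ∈ Off A s` and `psi B m s x < c`; by continuity (`continuous_len`)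
`len B m s y < exp c` for `y` near `x`; for such `y ∈ Off A s`, `psi B m s y < c` (`Real.log_lt_iff_lt_exp`)
and `Ψ = 0`; for `y ∉ Off A s` the value is `0` by definition.
`Sm_ext`: at `z ∈ (A.c i).target` show `ContDiffWithinAt` from `ContDiffAt`. If `z ∈ Ou A s i` (open,
`isOpen_Ou`): near `z` the function is `Ψ (lp m (B.wt i) (st A s i) z) * vt A u i z` (`ext_chart`),
a composition and product of smooth functions: `lp = Real.log (uu ..)`, `uu` smooth on the target
(`contDiffOn_uu`, DTW/Main.lean) and positive at `z` (`vt_len`, `len_pos`), `hu i`. If not: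
`ext_near` at `x = (A.c i).symm z` and continuity of `(A.c i).symm` at `z` give that the function is
`0` near `z`.
`LM_zero_near`: as in the proof of `P_zero_off` in DTW/Glo.lean. `P_zero_near`: unfold `P`, `QQ`.
-/

open scoped ContDiff ComplexConjugate Topology
open Complex

namespace Pool.Agent.CIS

open Pool.Agent.DTW

variable {n : ℕ} {X : Type*} [TopologicalSpace X] {ι : Type*} {A : Atlas n X ι} {B : Bundle A}
  {m : ℤ} {s : ι → X → ℂ} {Ψ : ℝ → ℝ} {u : X → ℝ} {c : ℝ}

theorem ext_chart (hs : B.IsSection m s) {i : ι} {z : E n} (hz : z ∈ Ou A s i) :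
    vt A (ext B m s Ψ u) i z = Ψ (lp (m : ℝ) (B.wt i) (st A s i) z) * vt A u i z := by
  unfold vt ext
  rw [if_pos hz.2, psi_chart hs hz.1]

theorem ext_near (hs : B.IsSection m s) (h0 : ∀ x ≤ c, Ψ x = 0) {x : X}
    (hx : x ∈ Off A s → psi B m s x < c) : ∀ᶠ y in 𝓝 x, ext B m s Ψ u y = 0 := by
  have h1 : len B m s x < Real.exp c := by
    by_cases h : x ∈ Off A s
    · have h2 := (len_pos hs).2 h
      exact (Real.log_lt_iff_lt_exp h2).1 (hx h)
    · have h2 : len B m s x = 0 := by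
        by_contra h3
        exact h ((len_pos hs).1 (lt_of_le_of_ne (len_nonneg x) (Ne.symm h3)))
      rw [h2]
      exact Real.exp_pos c
  filter_upwards [(continuous_len hs).continuousAt.eventually_lt
    (continuousAt_const (y := Real.exp c)) h1] with y hy
  unfold ext
  split_ifs with h
  · have h2 : psi B m s y < c := (Real.log_lt_iff_lt_exp ((len_pos hs).2 h)).2 hy
    rw [h0 _ h2.le, zero_mul]
  · rfl

theorem Sm_ext (hs : B.IsSection m s) (hΨ : ContDiff ℝ ∞ Ψ) (h0 : ∀ x ≤ c, Ψ x = 0)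
    (hu : SmOff A s u) : Sm A (ext B m s Ψ u) := by
  intro i z hz
  refine ContDiffAt.contDiffWithinAt ?_
  by_cases h : z ∈ Ou A s i
  · have hO := (isOpen_Ou hs i).mem_nhds h
    have h1 : vt A (ext B m s Ψ u) i
        =ᶠ[𝓝 z] fun y => Ψ (lp (m : ℝ) (B.wt i) (st A s i) y) * vt A u i y := by
      filter_upwards [hO] with y hy
      exact ext_chart hs hy
    refine ContDiffAt.congr_of_eventuallyEq ?_ h1
    have h2 : ContDiffAt ℝ ∞ (uu (m : ℝ) (B.wt i) (st A s i)) z :=
      (contDiffOn_uu (B.smooth i) (hs.smooth i)).contDiffAt ((A.c i).open_target.mem_nhds hz)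
    have h3 : uu (m : ℝ) (B.wt i) (st A s i) z ≠ 0 := by
      rw [← vt_len hs i hz]
      exact ((len_pos hs).2 h.2).ne'
    have h4 : ContDiffAt ℝ ∞ (fun y => lp (m : ℝ) (B.wt i) (st A s i) y) z := h2.log h3
    exact (hΨ.contDiffAt.comp z h4).mul ((hu i).contDiffAt hO)
  · have h1 : (A.c i).symm z ∉ Off A s := fun h2 => h ⟨hz, h2⟩
    have h2 := ext_near (Ψ := Ψ) (u := u) hs h0 (x := (A.c i).symm z) (fun h3 => absurd h3 h1)
    have h3 : vt A (ext B m s Ψ u) i =ᶠ[𝓝 z] fun _ => (0 : ℝ) :=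
      ((A.c i).continuousAt_symm hz).eventually h2
    exact contDiffAt_const.congr_of_eventuallyEq h3

theorem LM_zero_near {v : X → ℝ} {i : ι} {x : X} (hi : x ∈ (A.c i).source)
    (h : ∀ᶠ y in 𝓝 x, v y = 0) (k l : Ix n) : LM (vt A v i) (A.c i x) k l = 0 := by
  have h1 : vt A v i =ᶠ[𝓝 (A.c i x)] fun _ => 0 := by
    have hz : A.c i x ∈ (A.c i).target := (A.c i).map_source hi
    have h2 : ContinuousAt (A.c i).symm (A.c i x) := (A.c i).continuousAt_symm hz
    have h3 : ∀ᶠ y in 𝓝 ((A.c i).symm (A.c i x)), v y = 0 := by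
      rw [(A.c i).left_inv hi]
      exact h
    exact h2.eventually h3
  rw [LM_congr h1, LM_eq]
  have h3 : pb l (cx (fun _ : E n => (0 : ℝ))) = fun _ => 0 := by
    funext y
    have h4 : cx (fun _ : E n => (0 : ℝ)) = fun _ => (0 : ℂ) := by
      funext y
      simp [cx]
    rw [h4]
    exact d01_const 0
  rw [h3]
  exact d10_const 0

theorem P_zero_near (B' : Bundle A) {v : X → ℝ} {x : X} (h : ∀ᶠ y in 𝓝 x, v y = 0) :
    P B' v x = 0 := by
  have h2 : ∀ k l, LM (vt A v (ix A x)) (A.c (ix A x) x) k l = 0 := fun k l =>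
    LM_zero_near (mem_ix A x) h k l
  unfold P QQ
  simp [h2]

end Pool.Agent.CIS
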