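import Pool.Agent.CIS.Ccn

/-!
CIS module Fwd (size 5): from a uniform time of existence on an invariant set to all positive times.
PROOF. `choose` curves `c x hx` for `x ∈ K` (or define `c : X → ℝ → X` by `if hx : x ∈ K`). Put
`δ = ε / 2`, and define by recursion `x 0 = x`, `x (k + 1) = c (x k) δ` (in `K`, since `δ < ε`; use a
sequence in the subtype `K`). Define `γ τ = c (x k) (τ - k δ)` with `k = ⌊τ / δ⌋₊` (natural floor).
(1) `γ 0 = c (x 0) 0 = x`; `γ τ ∈ K` for `τ > -ε`: `-ε < τ - k δ < ε` (for `τ ≥ 0`,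
`0 ≤ τ - k δ < δ` by `Nat.floor_le`, `Nat.lt_floor_add_one`; for `τ < 0`, `k = 0`).
(2) If `τ ∈ (k δ, (k + 1) δ)` (or `k = 0` and `τ ∈ (-ε, δ)`): near `τ` the floor is `k`, so `γ` coincides
near `τ` with `u ↦ c (x k) (u - k δ)`: `IC.congr`, `IC.shift`.
(3) If `τ = (k + 1) δ`: near `τ` (for `|u - τ| < δ`), `γ u = c (x k) (u - k δ)` for `u ≤ τ`
(at `u = τ` because `c (x k) δ = x (k + 1) = c (x (k + 1)) 0`) and `γ u = c (x (k + 1)) (u - (k + 1) δ)`
for `u > τ`: `IC.glue` of the two shifted curves (`δ < ε` and `0` are times of existence), then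
`IC.congr`.
Every `τ > -ε` is in case (2) or (3).
-/

open scoped ContDiff ComplexConjugate Topology
open Complex

namespace Pool.Agent.CIS

open Pool.Agent.DTW

variable {n : ℕ} {X : Type*} [TopologicalSpace X] {ι : Type*} {A : Atlas n X ι}
  {V : ι → E n → E n} {K : Set X} {ε : ℝ}

private theorem fwd_floor {δ u : ℝ} (hδ : 0 < δ) (k : ℕ) (h1 : k = 0 ∨ (k : ℝ) * δ ≤ u)
    (h2 : u < ((k : ℝ) + 1) * δ) : ⌊u / δ⌋₊ = k := by
  rcases lt_or_ge u 0 with hu | hu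
  · have hk : k = 0 := by
      rcases h1 with h1 | h1
      · exact h1
      · by_contra hk
        have : (0 : ℝ) < k := by exact_mod_cast Nat.pos_of_ne_zero hk
        have := mul_pos this hδ
        linarith
    rw [hk]
    exact Nat.floor_of_nonpos (div_nonpos_of_nonpos_of_nonneg hu.le hδ.le)
  · rw [Nat.floor_eq_iff (div_nonneg hu hδ.le)]
    refine ⟨?_, ?_⟩
    · rw [le_div_iff₀ hδ]
      rcases h1 with h1 | h1
      · rw [h1]
        simpa using hu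
      · exact h1
    · rw [div_lt_iff₀ hδ]
      exact h2

theorem forward (hε : 0 < ε) (H : ∀ x ∈ K, ∃ γ : ℝ → X, γ 0 = x ∧
      ∀ τ ∈ Set.Ioo (-ε) ε, IC A V γ τ ∧ γ τ ∈ K) {x : X} (hx : x ∈ K) :
    ∃ γ : ℝ → X, γ 0 = x ∧ ∀ τ, -ε < τ → IC A V γ τ ∧ γ τ ∈ K := by
  have H' : ∀ y : K, ∃ γ : ℝ → X, γ 0 = y.1 ∧ ∀ τ ∈ Set.Ioo (-ε) ε, IC A V γ τ ∧ γ τ ∈ K :=
    fun y => H y.1 y.2
  choose c c0 c1 using H'
  obtain ⟨δ, hδ⟩ : ∃ δ : ℝ, δ = ε / 2 := ⟨_, rfl⟩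
  have δpos : 0 < δ := by rw [hδ]; linarith
  have δlt : δ < ε := by rw [hδ]; linarith
  have δε : 2 * δ = ε := by rw [hδ]; ring
  let step : K → K := fun y => ⟨c y δ, (c1 y δ ⟨by linarith, δlt⟩).2⟩
  obtain ⟨xs, xs0, xsS⟩ : ∃ xs : ℕ → K, xs 0 = ⟨x, hx⟩ ∧ ∀ k, xs (k + 1) = step (xs k) :=
    ⟨fun k => Nat.rec (⟨x, hx⟩ : K) (fun _ y => step y) k, rfl, fun _ => rfl⟩
  have xsS' : ∀ k, (xs (k + 1)).1 = c (xs k) δ := fun k => by rw [xsS]
  obtain ⟨G, hG⟩ : ∃ G : ℕ → ℝ → X, ∀ k u, G k u = c (xs k) (u - k * δ) := ⟨_, fun _ _ => rfl⟩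
  have ICG : ∀ (k : ℕ) (τ : ℝ), -ε < τ - k * δ → τ - k * δ < ε → IC A V (G k) τ := by
    intro k τ h1 h2
    have h3 := (c1 (xs k) (τ - k * δ) ⟨h1, h2⟩).1
    have h4 := h3.shift
    exact h4.congr (Filter.Eventually.of_forall fun u => (hG k u).symm)
  obtain ⟨γ, hγ⟩ : ∃ γ : ℝ → X, ∀ u, γ u = G ⌊u / δ⌋₊ u := ⟨_, fun _ => rfl⟩
  have γeq : ∀ (k : ℕ) (u : ℝ), (k = 0 ∨ (k : ℝ) * δ ≤ u) → u < ((k : ℝ) + 1) * δ →
      γ u = G k u := by
    intro k u h1 h2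
    rw [hγ, fwd_floor δpos k h1 h2]
  have Gmem : ∀ (k : ℕ) (τ : ℝ), -ε < τ - k * δ → τ - k * δ < ε → G k τ ∈ K := by
    intro k τ h1 h2
    rw [hG]
    exact (c1 (xs k) (τ - k * δ) ⟨h1, h2⟩).2
  refine ⟨γ, ?_, ?_⟩
  · rw [γeq 0 0 (Or.inl rfl) (by simpa using δpos), hG]
    simp only [Nat.cast_zero, zero_mul, sub_zero]
    rw [c0, xs0]
  intro τ hτ
  -- the floor of `τ / δ`
  obtain ⟨k, hk1, hk2⟩ : ∃ k : ℕ, (k = 0 ∨ (k : ℝ) * δ ≤ τ) ∧ τ < ((k : ℝ) + 1) * δ := by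
    rcases lt_or_ge τ 0 with h | h
    · refine ⟨0, Or.inl rfl, ?_⟩
      simp only [Nat.cast_zero, zero_add, one_mul]
      linarith
    · refine ⟨⌊τ / δ⌋₊, Or.inr ?_, ?_⟩
      · have := Nat.floor_le (div_nonneg h δpos.le)
        rwa [le_div_iff₀ δpos] at this
      · have := Nat.lt_floor_add_one (τ / δ)
        rwa [div_lt_iff₀ δpos] at this
  have hb1 : -ε < τ - k * δ := by
    rcases hk1 with h | h
    · rw [h]; simpa using hτ
    · linarith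
  have hb2 : τ - k * δ < ε := by
    have : ((k : ℝ) + 1) * δ = k * δ + δ := by ring
    linarith
  refine ⟨?_, ?_⟩
  swap
  · rw [γeq k τ hk1 hk2]
    exact Gmem k τ hb1 hb2
  by_cases hcase : k = 0 ∨ (k : ℝ) * δ < τ
  · -- near `τ` the floor is `k`
    refine (ICG k τ hb1 hb2).congr ?_
    have h2 : ∀ᶠ u in 𝓝 τ, u < ((k : ℝ) + 1) * δ := eventually_lt_nhds hk2
    rcases hcase with h | h
    · filter_upwards [h2] with u hu
      exact (γeq k u (Or.inl h) hu).symm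
    · have h1 : ∀ᶠ u in 𝓝 τ, (k : ℝ) * δ < u := eventually_gt_nhds h
      filter_upwards [h1, h2] with u hu1 hu2
      exact (γeq k u (Or.inr hu1.le) hu2).symm
  · -- `τ = k δ` with `k ≥ 1`
    push Not at hcase
    obtain ⟨hk0, hk3⟩ := hcase
    have hτk : τ = k * δ := by
      rcases hk1 with h | h
      · exact absurd h hk0
      · exact le_antisymm hk3 h
    obtain ⟨j, rfl⟩ : ∃ j : ℕ, k = j + 1 := ⟨k - 1, by omega⟩
    have hc : ((j + 1 : ℕ) : ℝ) = (j : ℝ) + 1 := by push_cast; ring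
    rw [hc] at hτk
    have e1 : τ - j * δ = δ := by rw [hτk]; ring
    have e2 : τ - ((j + 1 : ℕ) : ℝ) * δ = 0 := by rw [hc, hτk]; ring
    have I1 : IC A V (G j) τ := ICG j τ (by rw [e1]; linarith) (by rw [e1]; exact δlt)
    have I2 : IC A V (G (j + 1)) τ := ICG (j + 1) τ (by rw [e2]; linarith) (by rw [e2]; exact hε)
    have hv : G j τ = G (j + 1) τ := by
      rw [hG, hG, e1, e2, c0, xsS']
    refine (I1.glue I2 hv).congr ?_
    have h1 : ∀ᶠ u in 𝓝 τ, τ - δ < u := eventually_gt_nhds (by linarith)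
    have h2 : ∀ᶠ u in 𝓝 τ, u < τ + δ := eventually_lt_nhds (by linarith)
    filter_upwards [h1, h2] with u hu1 hu2
    by_cases hu : u ≤ τ
    · rw [if_pos hu]
      rcases hu.lt_or_eq with hlt | heq
      · refine (γeq j u (Or.inr ?_) ?_).symm
        · have : τ = j * δ + δ := by rw [hτk]; ring
          linarith
        · rw [← hτk]; exact hlt
      · rw [heq, γeq (j + 1) τ hk1 hk2, hv]
    · rw [if_neg hu]
      push Not at hu
      refine (γeq (j + 1) u (Or.inr ?_) ?_).symm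
      · rw [hc, ← hτk]; exact hu.le
      · rw [hc]
        have : ((j : ℝ) + 1 + 1) * δ = τ + δ := by rw [hτk]; ring
        rw [this]
        exact hu2

end Pool.Agent.CIS
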