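import Pool.Agent.CIS.Fiv

/-!
CIS module Qab (size 4): pure algebra, see DTW/Alg.lean.
PROOF of `five_aa`. Insert the definition of `five`; `∑ k j, a k conj (a j) * (term)`:
(1) `p k conj (p j)` gives `|∑ a p|²`; (2) `F k j` gives `∑ j, conj (a j) * (∑ k, a k F k j) = 0` by
`ha`; (3), (4) give the products of `∑ a p` and `∑ a d`; (5) is the last sum.
PROOF of `QQ_ff_nonneg`: `QQ_nonneg` with the matrix `V k j = f k * conj (f j)`, which is `Psd`
(`herm`: `conj (f k conj (f l)) = f l conj (f k)`; `pos`: `∑ k l, a k conj (a l) f k conj (f l)`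
`= |∑ a f|²`, whose real part is `≥ 0`).
PROOF of `ker_of_QQ`: as at the end of `main_vanish` (DTW/Main.lean). Reindexing `k → k'`, `l → l'`
(`sum_swap`), `QQ F (f ⊗ conj f) = ∑ k l, F k l * x k * conj (x l)` with
`x k = sg k.swap * f k.swap`; `Psd.ker` gives `∑ k, F k j * x k = 0`; reindex again.
PROOF of `ham_ker`: reindex `k → k'` and `sg_swap`.
-/

open scoped ContDiff ComplexConjugate Topology
open Complex

namespace Pool.Agent.CIS

open Pool.Agent.DTW

variable {n : ℕ}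

theorem five_aa {F : Ix n → Ix n → ℂ} {a : Ix n → ℂ} (ha : ∀ j, ∑ k : Ix n, a k * F k j = 0)
    (m : ℝ) (p d : Ix n → ℂ) (V : Ix n → Ix n → ℂ) (Ψ₀ Ψ₁ Ψ₂ u : ℝ) :
    ∑ k : Ix n, ∑ j : Ix n, a k * conj (a j) * five m F p d V Ψ₀ Ψ₁ Ψ₂ u k j
      = (Ψ₂ * u : ℝ) * ((∑ k : Ix n, a k * p k) * conj (∑ k : Ix n, a k * p k))
        + Ψ₁ * ((∑ k : Ix n, a k * p k) * conj (∑ k : Ix n, a k * d k)
          + (∑ k : Ix n, a k * d k) * conj (∑ k : Ix n, a k * p k))
        + Ψ₀ * ∑ k : Ix n, ∑ j : Ix n, a k * conj (a j) * V k j := by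
  have h1 : ∀ x y : Ix n → ℂ, (∑ k : Ix n, a k * x k) * conj (∑ k : Ix n, a k * y k)
      = ∑ k : Ix n, ∑ j : Ix n, (a k * x k) * (conj (a j) * conj (y j)) := by
    intro x y
    rw [map_sum, Finset.sum_mul_sum]
    simp only [map_mul]
  have h2 : ∑ k : Ix n, ∑ j : Ix n, a k * conj (a j) * F k j = 0 := by
    rw [Finset.sum_comm]
    refine Finset.sum_eq_zero fun j _ => ?_
    have h3 : ∑ k : Ix n, a k * conj (a j) * F k j = conj (a j) * ∑ k : Ix n, a k * F k j := by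
      rw [Finset.mul_sum]
      exact Finset.sum_congr rfl fun k _ => by ring
    rw [h3, ha, mul_zero]
  have h4 : ∀ k j : Ix n, a k * conj (a j) * five m F p d V Ψ₀ Ψ₁ Ψ₂ u k j
      = (Ψ₂ * u : ℝ) * ((a k * p k) * (conj (a j) * conj (p j)))
        - (m * Ψ₁ * u : ℝ) * (a k * conj (a j) * F k j)
        + Ψ₁ * ((a k * p k) * (conj (a j) * conj (d j)))
        + Ψ₁ * ((a k * d k) * (conj (a j) * conj (p j)))
        + Ψ₀ * (a k * conj (a j) * V k j) := by
    intro k j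
    unfold five
    ring
  have hc : ∀ (c : ℂ) (G : Ix n → Ix n → ℂ), ∑ k : Ix n, ∑ j : Ix n, c * G k j
      = c * ∑ k : Ix n, ∑ j : Ix n, G k j := by
    intro c G
    simp only [Finset.mul_sum]
  simp only [h4, Finset.sum_add_distrib, Finset.sum_sub_distrib]
  rw [hc, hc, hc, hc, hc, h1 p p, h1 p d, h1 d p, h2]
  ring

theorem QQ_ff_nonneg {F : Ix n → Ix n → ℂ} (hF : Psd F) (f : Ix n → ℂ) :
    0 ≤ (QQ F (fun k j => f k * conj (f j))).re := by
  refine QQ_nonneg hF ⟨fun k l => ?_, fun a => ?_⟩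
  · rw [map_mul, Complex.conj_conj]
    ring
  · have h1 : ∑ k : Ix n, ∑ l : Ix n, a k * conj (a l) * (f k * conj (f l))
        = ((Complex.normSq (∑ k : Ix n, a k * f k) : ℝ) : ℂ) := by
      rw [← Complex.mul_conj, map_sum, Finset.sum_mul_sum]
      refine Finset.sum_congr rfl fun k _ => Finset.sum_congr rfl fun l _ => ?_
      rw [map_mul]
      ring
    rw [h1, Complex.ofReal_re]
    exact Complex.normSq_nonneg _

theorem ker_of_QQ {F : Ix n → Ix n → ℂ} (hF : Psd F) {f : Ix n → ℂ}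
    (h : (QQ F (fun k j => f k * conj (f j))).re = 0) (j : Ix n) :
    ∑ k : Ix n, sg k * F k.swap j * f k = 0 := by
  have hs : ∀ G : Ix n → Ix n → ℂ, ∑ k : Ix n, ∑ l : Ix n, G k.swap l.swap
      = ∑ k : Ix n, ∑ l : Ix n, G k l := by
    intro G
    rw [sum_swap (fun k => ∑ l : Ix n, G k l.swap)]
    exact Finset.sum_congr rfl fun k _ => sum_swap (G k)
  have h2 : QQ F (fun k j => f k * conj (f j)) = ∑ k : Ix n, ∑ l : Ix n,
      F k l * (sg k.swap * f k.swap) * conj (sg l.swap * f l.swap) := by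
    unfold QQ
    rw [← hs (fun k l => F k l * (sg k.swap * f k.swap) * conj (sg l.swap * f l.swap))]
    refine Finset.sum_congr rfl fun k _ => Finset.sum_congr rfl fun l _ => ?_
    rw [Sum.swap_swap, Sum.swap_swap, map_mul, conj_sg]
    ring
  rw [h2] at h
  have h4 := hF.ker (fun k => sg k.swap * f k.swap) h j
  rw [← h4, ← sum_swap]
  refine Finset.sum_congr rfl fun k _ => ?_
  rw [Sum.swap_swap]
  ring

theorem ham_ker {F : Ix n → Ix n → ℂ} {f : Ix n → ℂ} {j : Ix n}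
    (h : ∑ k : Ix n, sg k * F k.swap j * f k = 0) :
    ∑ k : Ix n, (sg k * f k.swap) * F k j = 0 := by
  rw [← sum_swap]
  have h1 : ∀ k : Ix n, sg k.swap * f k.swap.swap * F k.swap j
      = -(sg k * F k.swap j * f k) := by
    intro k
    rw [Sum.swap_swap, sg_swap]
    ring
  simp only [h1, Finset.sum_neg_distrib, h, neg_zero]

end Pool.Agent.CIS
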