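import Pool.Agent.CIS.Lex
import Pool.Agent.CIS.Qaa
import Pool.Agent.CIS.Qab
import Pool.Agent.CIS.Cut

/-!
CIS module Gen (size 4): the operator of the trivial bundle with weight `cot(log |s|²) |f|²`, applied to
`cut(log |s|²) u`.
PROOF. `Sm_W`: `Sm_ext` with `c - 2` (`contDiff_cot`, `cot_zero`, `SmOff_nq`).
`W_near`: for `y` near `z` (`y ∈ Ou A s i` open; `lp m (B.wt i) (st A s i) y > c - 1` by continuity of
`lp` at `z`: `contDiffOn_lp` in Lps, or `psi_chart`, `continuousAt_psi` of Bas and the continuity of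
`(A.c i).symm`), `vt A (W ..) i y = cot c (lp ..) * nq (f ∘ (A.c i).symm) y = nq (f ∘ (A.c i).symm) y`
(`ext_chart`, `cot_one`).
`P_triv`: `P_eq` for the bundle `triv A W hW` (its `wt i` is `vt A W i` by rfl) and
`v = ext B m s (cut c) u` (`Sm_ext`); `LM (vt A W i) z = fun k j => φ k * conj (φ j)`,
`φ k = pk k (f ∘ (A.c i).symm) z` (`LM_congr` with `W_near`, `LM_nq`); `LM_ext` for `v`; `rank_one`; then
`five_aa` with `a k = sg k * φ k.swap` (`ham_ker` gives the hypothesis `ha` from `hker`).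
-/

open scoped ContDiff ComplexConjugate Topology
open Complex MeasureTheory

namespace Pool.Agent.CIS

open Pool.Agent.DTW

variable {n : ℕ} {X : Type*} [TopologicalSpace X] {ι : Type*} {A : Atlas n X ι} {B : Bundle A}
  {m : ℤ} {s : ι → X → ℂ} {u : X → ℝ} {c : ℝ} {f : X → ℂ}

/-- the weight of the trivial bundle -/
noncomputable def W (B : Bundle A) (m : ℤ) (s : ι → X → ℂ) (c : ℝ) (f : X → ℂ) : X → ℝ :=
  ext B m s (cot c) (fun x => ‖f x‖ ^ 2)

theorem Sm_W (hs : B.IsSection m s) (hf : HolOff A s f) : Sm A (W B m s c f) := by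
  exact Sm_ext (c := c - 2) hs (contDiff_cot c) (fun x hx => cot_zero hx) (SmOff_nq hf)

theorem W_near (hs : B.IsSection m s) {i : ι} {z : E n} (hz : z ∈ Ou A s i)
    (hc : c - 1 < lp (m : ℝ) (B.wt i) (st A s i) z) :
    vt A (W B m s c f) i =ᶠ[𝓝 z] nq (f ∘ (A.c i).symm) := by
  have hU := isOpen_Ou hs i
  have hcont : ContinuousAt (lp (m : ℝ) (B.wt i) (st A s i)) z :=
    (contDiffOn_lp (U := Ou A s i) (w := B.wt i) (s := st A s i) ((B.smooth i).mono (Ou_subset i))
      ((hs.smooth i).mono (Ou_subset i)) (fun y hy => st_ne hy)).continuousOn.continuousAt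
      (hU.mem_nhds hz)
  filter_upwards [hU.mem_nhds hz, hcont.eventually (lt_mem_nhds hc)] with y hy hy2
  unfold W
  rw [ext_chart hs hy, cot_one (le_of_lt hy2), one_mul]
  rfl

/-- `a k = sg k * ∂f/∂z_k'` -/
noncomputable def aa (A : Atlas n X ι) (f : X → ℂ) (i : ι) (z : E n) (k : Ix n) : ℂ :=
  sg k * pk k.swap (f ∘ (A.c i).symm) z

theorem P_triv (hs : B.IsSection m s) (hol : B.IsHol s) (hf : HolOff A s f) (hu : SmOff A s u)
    (hW : Sm A (W B m s c f)) {i : ι} {z : E n} (hz : z ∈ Ou A s i)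
    (hc : c - 1 < lp (m : ℝ) (B.wt i) (st A s i) z)
    (hker : ∀ j, ∑ k : Ix n, sg k * LM (B.wt i) z k.swap j * pk k (f ∘ (A.c i).symm) z = 0)
    (p d : Ix n → ℂ) (hp : p = fun k => DD (m : ℝ) (B.wt i) k (st A s i) z / st A s i z)
    (hd : d = fun k => pk k (cx (vt A u i)) z) (t : ℝ)
    (ht : t = lp (m : ℝ) (B.wt i) (st A s i) z) :
    P (triv A (W B m s c f) hW) (ext B m s (cut c) u) ((A.c i).symm z)
      = ((deriv (deriv (cut c)) t * vt A u i z : ℝ)
          * ((∑ k : Ix n, aa A f i z k * p k) * conj (∑ k : Ix n, aa A f i z k * p k))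
        + (deriv (cut c) t : ℝ)
          * ((∑ k : Ix n, aa A f i z k * p k) * conj (∑ k : Ix n, aa A f i z k * d k)
            + (∑ k : Ix n, aa A f i z k * d k) * conj (∑ k : Ix n, aa A f i z k * p k))
        + (cut c t : ℝ) * ∑ k : Ix n, ∑ j : Ix n,
            aa A f i z k * conj (aa A f i z j) * LM (vt A u i) z k j : ℂ).re := by
  subst hp hd ht
  have hSm := Sm_ext (c := c) hs (contDiff_cut c) (fun x hx => cut_zero hx) hu
  have hLM : LM (vt A (W B m s c f) i) z = fun k j => pk k (f ∘ (A.c i).symm) z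
      * conj (pk j (f ∘ (A.c i).symm) z) := by
    funext k j
    rw [LM_congr (W_near hs hz hc) k j]
    exact LM_nq (isOpen_Ou hs i) (hf.smooth i) (fun y hy j => hf.pb hs i hy j) hz k j
  have ha : ∀ j, ∑ k : Ix n, aa A f i z k * LM (B.wt i) z k j = 0 := fun j => ham_ker (hker j)
  have h1 := five_aa (F := LM (B.wt i) z) ha (m : ℝ)
    (fun k => DD (m : ℝ) (B.wt i) k (st A s i) z / st A s i z)
    (fun k => pk k (cx (vt A u i)) z) (LM (vt A u i) z)
    (cut c (lp (m : ℝ) (B.wt i) (st A s i) z)) (deriv (cut c) (lp (m : ℝ) (B.wt i) (st A s i) z))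
    (deriv (deriv (cut c)) (lp (m : ℝ) (B.wt i) (st A s i) z)) (vt A u i z)
  have h2 : P (triv A (W B m s c f) hW) (ext B m s (cut c) u) ((A.c i).symm z)
      = (QQ (LM (vt A (W B m s c f) i) z) (LM (vt A (ext B m s (cut c) u) i) z)).re := by
    rw [P_eq (triv A (W B m s c f) hW) hSm ((A.c i).map_target hz.1), (A.c i).right_inv hz.1]
    rfl
  rw [h2, hLM, rank_one, LM_ext hs hol (contDiff_cut c) hu hz]
  exact congrArg Complex.re h1

end Pool.Agent.CIS
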