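import Pool.Agent.CIS.Bas

/-!
CIS module Inv (size 4): Hamiltonian fields do not depend on the chart, and are smooth.
PROOF of `S_ham`: `S_eq` (DTW/Alg.lean: `S a b = ∑ k, sg k * a k * b k.swap`), `sg_sq`, reindexing
`sum_swap`, `d10_eq_sum`. `ham_unique`: test with `b = e k` (`S_single`, `sg k ≠ 0`), as in
`eq_of_zo` of DTW/Main.lean.
PROOF of `ham_chart`. Let `φ = ph A i j`, `f_i = f ∘ (A.c i).symm`. Near `z` (open set `Uo A i j`)
`f_i y = f_j (φ y)` (`symm_ph`). Complex differentiability of `φ` at `z`: `contDiffOn_ph`, `isOpen_Uo`;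
real differentiability of `f_j` at `φ z ∈ Ou A s j`: `HolOff.smooth`, `isOpen_Ou`. For all `b`:
`S (Dφ (ham f_i z)) (Dφ b) = S (ham f_i z) b` (`A.symp`) `= d10 f_i z b = d10 f_j (φ z) (Dφ b)`
(`d10_congr`, `d10_comp` of DTW/Chg.lean) `= S (ham f_j (φ z)) (Dφ b)`. `Dφ = fderiv ℂ φ z` is
surjective: it is injective (`Dφ a = 0` gives `S a b = S (Dφ a) (Dφ b) = 0` for all `b`, so `a = 0` by
`S_single`) and `E n` is finite dimensional (`LinearMap.injective_iff_surjective`). Conclude by
`ham_unique`-type argument: `S a c = S a' c` for all `c` implies `a = a'`.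
PROOF of `ham_smooth`: coordinates (`contDiffOn_pi`), `contDiffOn_d10` (DTW/Base.lean).
-/

open scoped ContDiff ComplexConjugate Topology
open Complex

namespace Pool.Agent.CIS

open Pool.Agent.DTW

variable {n : ℕ} {X : Type*} [TopologicalSpace X] {ι : Type*} {A : Atlas n X ι} {B : Bundle A}
  {m : ℤ} {s : ι → X → ℂ}

theorem S_ham (f : E n → ℂ) (z b : E n) : S (ham f z) b = d10 f z b := by
  rw [S_eq, d10_eq_sum, ← sum_swap (fun k => b k * pk k f z)]
  refine Finset.sum_congr rfl fun k _ => ?_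
  have h1 : ham f z k = sg k * d10 f z (e k.swap) := rfl
  have h2 : pk k.swap f z = d10 f z (e k.swap) := rfl
  rw [h1, h2]
  linear_combination (d10 f z (e k.swap) * b k.swap) * sg_sq k

theorem S_ext {a a' : E n} (h : ∀ b, S a b = S a' b) : a = a' := by
  funext k
  have h3 := h (e k.swap)
  rw [S_single, S_single, Sum.swap_swap, sg_swap, neg_neg] at h3
  have h4 : sg k ≠ 0 := by
    intro h0
    have := sg_sq k
    rw [h0] at this
    simp at this
  exact mul_left_cancel₀ h4 h3

theorem ham_chart (hs : B.IsSection m s) {f : X → ℂ} (hf : HolOff A s f) {i j : ι} {z : E n}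
    (hz : z ∈ Uo A i j) (hz' : (A.c i).symm z ∈ Off A s) :
    fderiv ℂ (ph A i j) z (hamX A f i z) = hamX A f j (ph A i j z) := by
  have hzj : ph A i j z ∈ Ou A s j := by
    refine ⟨ph_mem hz, ?_⟩
    rw [symm_ph hz]
    exact hz'
  have hφ : DifferentiableAt ℂ (ph A i j) z :=
    ((contDiffOn_ph A i j).contDiffAt ((isOpen_Uo A i j).mem_nhds hz)).differentiableAt (by simp)
  have hG : DifferentiableAt ℝ (f ∘ (A.c j).symm) (ph A i j z) :=
    diffAt_of (isOpen_Ou hs j) (hf.smooth j) hzj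
  have h1 : (f ∘ (A.c i).symm) =ᶠ[𝓝 z] fun y => (f ∘ (A.c j).symm) (ph A i j y) := by
    filter_upwards [(isOpen_Uo A i j).mem_nhds hz] with y hy
    show f ((A.c i).symm y) = f ((A.c j).symm (ph A i j y))
    rw [symm_ph hy]
  have hsym : ∀ a b : E n, S (fderiv ℂ (ph A i j) z a) (fderiv ℂ (ph A i j) z b) = S a b :=
    fun a b => A.symp i j z hz.1 hz.2 a b
  have hinj : Function.Injective (fderiv ℂ (ph A i j) z : E n →ₗ[ℂ] E n) := by
    intro a a' haa
    refine S_ext fun b => ?_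
    have haa' : fderiv ℂ (ph A i j) z a = fderiv ℂ (ph A i j) z a' := haa
    rw [← hsym a b, ← hsym a' b, haa']
  have hsur : Function.Surjective (fderiv ℂ (ph A i j) z : E n →ₗ[ℂ] E n) :=
    LinearMap.injective_iff_surjective.1 hinj
  refine S_ext fun c => ?_
  obtain ⟨b, hb⟩ := hsur c
  have hb' : fderiv ℂ (ph A i j) z b = c := hb
  rw [← hb', hsym]
  unfold hamX
  rw [S_ham, S_ham, d10_congr h1, d10_comp hφ hG]

theorem ham_smooth (hs : B.IsSection m s) {f : X → ℂ} (hf : HolOff A s f) (i : ι) :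
    ContDiffOn ℝ ∞ (hamX A f i) (Ou A s i) := by
  rw [contDiffOn_pi]
  intro k
  exact contDiffOn_const.mul (contDiffOn_d10 (isOpen_Ou hs i) (hf.smooth i) (e k.swap))

end Pool.Agent.CIS
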