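import Pool.Agent.CIS.Inv
import Pool.Agent.CIS.Dim
import Pool.Agent.CIS.Slc

/-!
CIS module Lcn (size 4): functions that are constant along the Hamiltonian fields of `n` independent
functions are locally constant on their common level sets.
-/

open scoped ContDiff ComplexConjugate Topology
open Complex

namespace Pool.Agent.CIS

open Pool.Agent.DTW

variable {n : ℕ} {X : Type*} [TopologicalSpace X] {ι : Type*} {A : Atlas n X ι} {B : Bundle A}
  {m : ℤ} {s : ι → X → ℂ}

theorem loc_const (hs : B.IsSection m s) {f : Fin n → X → ℂ} (hf : ∀ j, HolOff A s (f j))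
    {G : X → ℝ} (hG : SmOff A s G) {i : ι} {x : X} (hx : x ∈ Off A s) (hi : x ∈ (A.c i).source)
    (hp : ∀ j k, ∀ y ∈ Ou A s i,
      poisson (f j ∘ (A.c i).symm) (f k ∘ (A.c i).symm) y = 0)
    (hd : ∀ y ∈ Ou A s i, ∀ (j : Fin n) (c : ℂ),
      fderiv ℝ (vt A G i) y (c • hamX A (f j) i y) = 0)
    (hind : LinearIndependent ℂ (fun j => hamX A (f j) i (A.c i x))) :
    ∀ᶠ y in 𝓝 x, (∀ j, f j y = f j x) → G y = G x := by
  have hO : IsOpen (Ou A s i) := isOpen_Ou hs i
  have hz : A.c i x ∈ Ou A s i := by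
    refine ⟨(A.c i).map_source hi, ?_⟩
    rw [(A.c i).left_inv hi]
    exact hx
  let F : E n → (Fin n → ℂ) := fun y j => (f j ∘ (A.c i).symm) y
  have hFd : ∀ y ∈ Ou A s i, ∀ j, DifferentiableAt ℂ (f j ∘ (A.c i).symm) y :=
    fun y hy j => (((hf j) i).contDiffAt (hO.mem_nhds hy)).differentiableAt (by simp)
  have hF : ContDiffOn ℝ ∞ F (Ou A s i) := contDiffOn_pi.2 fun j => (hf j).smooth i
  have key : ∀ y ∈ Ou A s i, ∀ (v : E n) (j : Fin n),
      fderiv ℝ F y v j = S (hamX A (f j) i y) v := by
    intro y hy v j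
    have hdj : ∀ j, DifferentiableAt ℝ (fun y => (f j ∘ (A.c i).symm) y) y :=
      fun j => (hFd y hy j).restrictScalars ℝ
    have h1 : fderiv ℝ F y v j = fderiv ℝ (f j ∘ (A.c i).symm) y v := by
      have h0 : fderiv ℝ F y
          = ContinuousLinearMap.pi fun j => fderiv ℝ (fun y => (f j ∘ (A.c i).symm) y) y :=
        fderiv_pi hdj
      rw [h0]
      rfl
    rw [h1]
    unfold hamX
    rw [S_ham]
    have h2 := d01_of_diff (hFd y hy j) v
    unfold d01 at h2
    unfold d10
    linear_combination h2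
  have hsur : Function.Surjective (fderiv ℝ F (A.c i x)) := by
    intro b
    obtain ⟨v, hv⟩ := dim_surj hind b
    refine ⟨v, ?_⟩
    funext j
    rw [key _ hz]
    exact hv j
  have hk : ∀ y ∈ Ou A s i, Function.Surjective (fderiv ℝ F y) →
      ∀ v, fderiv ℝ F y v = 0 → fderiv ℝ (vt A G i) y v = 0 := by
    intro y hy hsu v hv
    have hli : LinearIndependent ℂ (fun j => hamX A (f j) i y) := by
      refine dim_indep fun b => ?_
      obtain ⟨w, hw⟩ := hsu b
      refine ⟨w, fun j => ?_⟩
      rw [← key y hy w j, hw]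
    have hiso : ∀ j k, S (hamX A (f j) i y) (hamX A (f k) i y) = 0 := by
      intro j k
      have h3 := hp k j y hy
      unfold poisson at h3
      unfold hamX
      rw [S_ham]
      exact h3
    have hSv : ∀ j, S (hamX A (f j) i y) v = 0 := by
      intro j
      rw [← key y hy v j, hv]
      rfl
    obtain ⟨c, hc⟩ := dim_span hli hiso hSv
    rw [hc, map_sum]
    exact Finset.sum_eq_zero fun j _ => hd y hy j (c j)
  have hsl := slice hO hF (G := vt A G i) (hG i) hz hsur hk
  have h1 := ((A.c i).continuousAt hi).eventually hsl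
  filter_upwards [h1, (A.c i).open_source.mem_nhds hi] with y hy hyi hj
  have h4 : F (A.c i y) = F (A.c i x) := by
    funext j
    show f j ((A.c i).symm (A.c i y)) = f j ((A.c i).symm (A.c i x))
    rw [(A.c i).left_inv hyi, (A.c i).left_inv hi]
    exact hj j
  have h5 := hy h4
  unfold vt at h5
  rw [(A.c i).left_inv hyi, (A.c i).left_inv hi] at h5
  exact h5

end Pool.Agent.CIS
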