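import Pool.Agent.CIS.Lcn
import Pool.Agent.CIS.Csv
import Pool.Agent.CIS.StC

/-!
CIS module Lev (size 5): the components of the level sets of `n` independent holomorphic functions on
`Off A s` are compact.
PROOF. Let `L = {y | y ∈ Off A s ∧ ∀ j, f j y = f j x}`, `Z = connectedComponentIn L x`.
(1) If `G : X → ℝ` is such that every `y ∈ Z` has a neighbourhood `N` with `G y' = G y` for
`y' ∈ N ∩ L`, then `G` is constant on `Z`: the restriction of `G` to the subtype `Z` is locally constant
(`IsLocallyConstant.iff_eventually_eq`) and `Z` is preconnected (`isPreconnected_connectedComponentIn`,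
`Subtype.preconnectedSpace`, `IsLocallyConstant.apply_eq_of_preconnectedSpace`). Apply this to
`G = len B m s`, `G = fun y => (g y).re`, `G = fun y => (g y).im` with `loc_const` (module Lcn) at the
points `y ∈ Z` (`y ∈ L`, `connectedComponentIn_subset`; for `y' ∈ L`: `f j y' = f j x = f j y`). Hypotheses
of `loc_const`: `hp`: `poisson_zero`. `SmOff`: `Sm_len`, restricted (`Ou_subset`); `HolOff.smooth` composed with
`Complex.reCLM`, `Complex.imCLM`. `hd` for `G = len`: with `a = hamX A (f j) i y`,
`fderiv ℝ (vt A G i) y (c • a) = 2 * (d10 (cx ..) y (c • a)).re` (`re_d10`, module Csv) `= 2 * (c * d10 (cx ..) y a).re`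
(`d10_smul_vec`), and `d10 (cx (vt A (len B m s) i)) y a = ∑ k, a k * pk k (cx ..) y = 0`: `vt_len` near `y`, conjugate
of `pb_cx_uu` (as in the proof of `hasDerivAt_len`, module Csv), `ham_psi` (module StB; `aa = hamX` by rfl).
`hd` for `re g`, `im g`: `fderiv ℝ (g ∘ (A.c i).symm) y (c • a) = d10 (..) y (c • a)` (`d10_add_d01`, `d01_of_diff`)
`= c * poisson (f j ..) (g ..) y = 0`, then compose with `reCLM`, `imCLM`.
(2) Compactness: `K = {y | len B m s y = len B m s x}` is closed (`continuous_len`), compact, contained in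
`Off A s` (`len_pos`). `Z ⊆ L ∩ K`. The set `L ∩ K` is closed in `X`: the functions `f j` are
continuous on `Off A s` (at `y ∈ Off A s`: chart `i`, `f j = (f j ∘ (A.c i).symm) ∘ A.c i` near `y`,
`HolOff.smooth`), so `L ∩ K` is a closed subset of the compact set `K` (`ContinuousOn.preimage_isClosed_of_isClosed`).
The closure of `Z` is contained in `L ∩ K ⊆ L`, it is preconnected (`IsPreconnected.closure`) and contains
`x`, so it is contained in `Z` (`IsPreconnected.subset_connectedComponentIn`): `Z` is closed in the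
compact space `X`.
-/

open scoped ContDiff ComplexConjugate Topology
open Complex MeasureTheory

namespace Pool.Agent.CIS

open Pool.Agent.DTW

variable {n : ℕ} {X : Type*} [TopologicalSpace X] {ι : Type*} {A : Atlas n X ι} {B : Bundle A}
  {m : ℤ} {s : ι → X → ℂ} [MeasurableSpace X] [BorelSpace X] [T2Space X] [CompactSpace X]
  {μ : Measure X}

omit [MeasurableSpace X] [BorelSpace X] [T2Space X] [CompactSpace X] in
private theorem lev_const {L : Set X} {x : X} (hxL : x ∈ L) {G : X → ℝ}
    (h : ∀ y ∈ connectedComponentIn L x, ∀ᶠ y' in 𝓝 y, y' ∈ L → G y' = G y) :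
    ∀ y ∈ connectedComponentIn L x, G y = G x := by
  intro y hy
  have : PreconnectedSpace (connectedComponentIn L x) :=
    Subtype.preconnectedSpace isPreconnected_connectedComponentIn
  have h1 : IsLocallyConstant (fun y : connectedComponentIn L x => G y) := by
    rw [IsLocallyConstant.iff_eventually_eq]
    intro z
    have h2 := continuous_subtype_val.continuousAt.eventually (h z z.2)
    filter_upwards [h2] with z' hz'
    exact hz' (connectedComponentIn_subset _ _ z'.2)
  exact h1.apply_eq_of_preconnectedSpace ⟨y, hy⟩ ⟨x, mem_connectedComponentIn hxL⟩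

private theorem lev_len (hμ : A.IsVolume μ) (hsp : B.Semipositive) (hq : Para B μ)
    (hs : B.IsSection m s) (hol : B.IsHol s) {f : X → ℂ} (hf : HolOff A s f) {i : ι} {y : E n}
    (hy : y ∈ Ou A s i) (c : ℂ) :
    fderiv ℝ (vt A (len B m s) i) y (c • hamX A f i y) = 0 := by
  have hyt : y ∈ (A.c i).target := hy.1
  have hnt : (A.c i).target ∈ 𝓝 y := (A.c i).open_target.mem_nhds hyt
  have hv : DifferentiableAt ℝ (vt A (len B m s) i) y :=
    ((Sm_len hs i).contDiffAt hnt).differentiableAt (by simp)
  have hd10 : d10 (cx (vt A (len B m s) i)) y (hamX A f i y) = 0 := by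
    have hw : ContDiffOn ℝ ∞ (B.wt i) (A.c i).target := B.smooth i
    have hf' : ContDiffOn ℝ ∞ (st A s i) (A.c i).target := hs.smooth i
    have hev2 : cx (vt A (len B m s) i) =ᶠ[𝓝 y] cx (uu (m : ℝ) (B.wt i) (st A s i)) := by
      filter_upwards [hnt] with z hz
      unfold cx
      rw [vt_len hs i hz]
    have hdu : DifferentiableAt ℝ (cx (uu (m : ℝ) (B.wt i) (st A s i))) y :=
      ((contDiffOn_cx (contDiffOn_uu hw hf')).contDiffAt hnt).differentiableAt (by simp)
    rw [d10_congr hev2, d10_eq_sum]
    have h2 : ∀ k, pk k (cx (uu (m : ℝ) (B.wt i) (st A s i))) y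
        = ((Real.exp (-((m : ℝ) * B.wt i y)) : ℝ) : ℂ) * conj (st A s i y)
          * DD (m : ℝ) (B.wt i) k (st A s i) y := by
      intro k
      rw [pk_cx hdu, pb_cx_uu (A.c i).open_target hw hf' hyt, pb_st hol i hyt, len_real]
      simp only [map_mul, Complex.conj_ofReal, Complex.conj_conj, zero_mul, zero_add]
      ring
    have h3 : ∑ k, hamX A f i y k * pk k (cx (uu (m : ℝ) (B.wt i) (st A s i))) y
        = ((Real.exp (-((m : ℝ) * B.wt i y)) : ℝ) : ℂ) * conj (st A s i y)
          * ∑ k, aa A f i y k * DD (m : ℝ) (B.wt i) k (st A s i) y := by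
      rw [Finset.mul_sum]
      refine Finset.sum_congr rfl fun k _ => ?_
      rw [h2 k]
      have h4 : hamX A f i y k = aa A f i y k := rfl
      rw [h4]
      ring
    rw [h3, ham_psi hμ hsp hq hs hol hf hy, mul_zero]
  rw [re_d10 hv, d10_smul_vec, hd10]
  simp

private theorem lev_fun (hμ : A.IsVolume μ) (hsp : B.Semipositive) (hq : Para B μ)
    (hs : B.IsSection m s) (hol : B.IsHol s) {f g : X → ℂ} (hf : HolOff A s f)
    (hg : HolOff A s g) {i : ι} {y : E n} (hy : y ∈ Ou A s i) (c : ℂ) :
    fderiv ℝ (g ∘ (A.c i).symm) y (c • hamX A f i y) = 0 := by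
  rw [← d10_add_d01]
  have h1 : d10 (g ∘ (A.c i).symm) y (hamX A f i y) = 0 :=
    poisson_zero hμ hsp hq hs hol hf hg hy
  have h2 : d01 (g ∘ (A.c i).symm) y (c • hamX A f i y) = 0 := by
    rw [d01_eq_sum]
    refine Finset.sum_eq_zero fun k _ => ?_
    rw [hg.pb hs i hy k, mul_zero]
  rw [d10_smul_vec, h1, h2, mul_zero, add_zero]

omit [MeasurableSpace X] [BorelSpace X] [T2Space X] [CompactSpace X] in
private theorem lev_cont (hs : B.IsSection m s) {g : X → ℂ} (hg : HolOff A s g) :
    ContinuousOn g (Off A s) := by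
  intro y hy
  refine ContinuousAt.continuousWithinAt ?_
  have hi := mem_ix A y
  have hz : A.c (ix A y) y ∈ Ou A s (ix A y) := by
    refine ⟨(A.c (ix A y)).map_source hi, ?_⟩
    rw [(A.c (ix A y)).left_inv hi]
    exact hy
  have h1 : ContinuousAt (g ∘ (A.c (ix A y)).symm) (A.c (ix A y) y) :=
    ((hg.smooth (ix A y)).contDiffAt ((isOpen_Ou hs _).mem_nhds hz)).continuousAt
  have h2 : ContinuousAt (fun z => (g ∘ (A.c (ix A y)).symm) (A.c (ix A y) z)) y :=
    ContinuousAt.comp (f := A.c (ix A y)) h1 ((A.c (ix A y)).continuousAt hi)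
  refine h2.congr ?_
  filter_upwards [(A.c (ix A y)).open_source.mem_nhds hi] with z hz'
  simp only [Function.comp_apply]
  rw [(A.c (ix A y)).left_inv hz']

theorem level_compact (hμ : A.IsVolume μ) (hsp : B.Semipositive) (hq : Para B μ)
    (hs : B.IsSection m s) (hol : B.IsHol s) {f : Fin n → X → ℂ} (hf : ∀ j, HolOff A s (f j))
    {x : X} (hx : x ∈ Off A s)
    (hind : ∀ y ∈ connectedComponentIn {y | y ∈ Off A s ∧ ∀ j, f j y = f j x} x,
      ∃ i, y ∈ (A.c i).source ∧ LinearIndependent ℂ (fun j => hamX A (f j) i (A.c i y))) :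
    IsCompact (connectedComponentIn {y | y ∈ Off A s ∧ ∀ j, f j y = f j x} x) ∧
      ∀ y ∈ connectedComponentIn {y | y ∈ Off A s ∧ ∀ j, f j y = f j x} x,
        len B m s y = len B m s x ∧ ∀ g : X → ℂ, HolOff A s g → g y = g x := by
  set L : Set X := {y | y ∈ Off A s ∧ ∀ j, f j y = f j x} with hL
  have hxL : x ∈ L := ⟨hx, fun _ => rfl⟩
  have hsub : connectedComponentIn L x ⊆ L := connectedComponentIn_subset _ _
  have hp : ∀ i j k, ∀ y ∈ Ou A s i,
      poisson (f j ∘ (A.c i).symm) (f k ∘ (A.c i).symm) y = 0 := fun i j k y hy =>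
    poisson_zero hμ hsp hq hs hol (hf j) (hf k) hy
  have main : ∀ G : X → ℝ, SmOff A s G →
      (∀ i, ∀ y ∈ Ou A s i, ∀ (j : Fin n) (c : ℂ),
        fderiv ℝ (vt A G i) y (c • hamX A (f j) i y) = 0) →
      ∀ y ∈ connectedComponentIn L x, G y = G x := by
    intro G hG hd
    refine lev_const hxL fun y hy => ?_
    obtain ⟨i, hi, hli⟩ := hind y hy
    have hyL := hsub hy
    have h1 := loc_const hs hf hG hyL.1 hi (hp i) (hd i) hli
    filter_upwards [h1] with y' hy' hyL'
    exact hy' fun j => by rw [hyL'.2 j, hyL.2 j]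
  have hlen : ∀ y ∈ connectedComponentIn L x, len B m s y = len B m s x :=
    main _ (fun i => (Sm_len hs i).mono (Ou_subset i)) fun i y hy j c =>
      lev_len hμ hsp hq hs hol (hf j) hy c
  have hfun : ∀ y ∈ connectedComponentIn L x, ∀ g : X → ℂ, HolOff A s g → g y = g x := by
    intro y hy g hg
    have hdg : ∀ i, ∀ y ∈ Ou A s i, DifferentiableAt ℝ (g ∘ (A.c i).symm) y := fun i y hy =>
      ((hg.smooth i).contDiffAt ((isOpen_Ou hs i).mem_nhds hy)).differentiableAt (by simp)
    refine Complex.ext ?_ ?_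
    · refine main (fun y => (g y).re) (fun i => ?_) (fun i y hy j c => ?_) y hy
      · exact Complex.reCLM.contDiff.comp_contDiffOn (hg.smooth i)
      · have h1 : HasFDerivAt (vt A (fun y => (g y).re) i)
            (Complex.reCLM.comp (fderiv ℝ (g ∘ (A.c i).symm) y)) y :=
          Complex.reCLM.hasFDerivAt.comp y (hdg i y hy).hasFDerivAt
        rw [h1.fderiv, ContinuousLinearMap.comp_apply,
          lev_fun hμ hsp hq hs hol (hf j) hg hy c, map_zero]
    · refine main (fun y => (g y).im) (fun i => ?_) (fun i y hy j c => ?_) y hy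
      · exact Complex.imCLM.contDiff.comp_contDiffOn (hg.smooth i)
      · have h1 : HasFDerivAt (vt A (fun y => (g y).im) i)
            (Complex.imCLM.comp (fderiv ℝ (g ∘ (A.c i).symm) y)) y :=
          Complex.imCLM.hasFDerivAt.comp y (hdg i y hy).hasFDerivAt
        rw [h1.fderiv, ContinuousLinearMap.comp_apply,
          lev_fun hμ hsp hq hs hol (hf j) hg hy c, map_zero]
  refine ⟨?_, fun y hy => ⟨hlen y hy, fun g hg => hfun y hy g hg⟩⟩
  set K : Set X := {y | len B m s y = len B m s x} with hK
  have hKc : IsClosed K := isClosed_eq (continuous_len hs) continuous_const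
  have hKO : K ⊆ Off A s := by
    intro y hy
    rw [← len_pos (B := B) (m := m) hs]
    have h1 : len B m s y = len B m s x := hy
    rw [h1]
    exact (len_pos hs).2 hx
  have hLK : IsClosed (L ∩ K) := by
    have h1 : L ∩ K = K ∩ (fun y => fun j => f j y) ⁻¹' {fun j => f j x} := by
      ext y
      constructor
      · rintro ⟨h1, h2⟩
        exact ⟨h2, funext fun j => h1.2 j⟩
      · rintro ⟨h1, h2⟩
        exact ⟨⟨hKO h1, fun j => congrFun h2 j⟩, h1⟩
    rw [h1]
    refine ContinuousOn.preimage_isClosed_of_isClosed ?_ hKc isClosed_singleton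
    exact continuousOn_pi.2 fun j => (lev_cont hs (hf j)).mono hKO
  have hZ : connectedComponentIn L x ⊆ L ∩ K := fun y hy => ⟨hsub hy, hlen y hy⟩
  have hcl : closure (connectedComponentIn L x) ⊆ L ∩ K := hLK.closure_subset_iff.2 hZ
  have hcl2 : closure (connectedComponentIn L x) ⊆ connectedComponentIn L x :=
    (isPreconnected_connectedComponentIn (F := L) (x := x)).closure.subset_connectedComponentIn
      (subset_closure (mem_connectedComponentIn hxL)) fun y hy => (hcl hy).1
  exact (isClosed_of_closure_subset hcl2).isCompact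

end Pool.Agent.CIS
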