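import Pool.Agent.CIS.Defs

/-!
CIS module Ode (size 4): local existence of integral curves, with a uniform time, in an open set.
-/

open scoped ContDiff ComplexConjugate Topology
open Complex

namespace Pool.Agent.CIS

open Pool.Agent.DTW

variable {n : ℕ}

theorem ode_open {W : E n → E n} {O : Set (E n)} (hO : IsOpen O) (hW : ContDiffOn ℝ 1 W O)
    {z₀ : E n} (hz₀ : z₀ ∈ O) :
    ∃ r > 0, ∃ ε > 0, ∀ z ∈ Metric.closedBall z₀ r, ∃ α : ℝ → E n, α 0 = z ∧
      ∀ τ ∈ Set.Ioo (-ε) ε, α τ ∈ O ∧ HasDerivAt α (W (α τ)) τ := by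
  have hW' : ContDiffAt ℝ 1 W z₀ := hW.contDiffAt (hO.mem_nhds hz₀)
  obtain ⟨ε, hε, a, r, L, K, hr, hpl⟩ := IsPicardLindelof.of_contDiffAt_one hW'
  obtain ⟨α, hα1, hα2⟩ :=
    (hpl 0).exists_forall_mem_closedBall_eq_hasDerivWithinAt_continuousOn
  have hr0 : (0 : ℝ) < r := hr
  have hmem0 : ((z₀, (0 : ℝ)) : E n × ℝ) ∈
      Metric.closedBall z₀ (r : ℝ) ×ˢ Set.Icc (0 - ε) (0 + ε) :=
    ⟨Metric.mem_closedBall_self hr0.le, by constructor <;> linarith⟩
  have h0 : α (z₀, 0) = z₀ := (hα1 z₀ (Metric.mem_closedBall_self hr0.le)).1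
  have hc : ContinuousAt α (z₀, 0) := by
    refine hα2.continuousAt ?_
    exact prod_mem_nhds (Metric.closedBall_mem_nhds z₀ hr0)
      (Icc_mem_nhds (by linarith) (by linarith))
  have hpre : α ⁻¹' O ∈ 𝓝 ((z₀, (0 : ℝ)) : E n × ℝ) :=
    hc (hO.mem_nhds (by rw [h0]; exact hz₀))
  rw [Metric.mem_nhds_iff] at hpre
  obtain ⟨δ, hδ, hball⟩ := hpre
  refine ⟨min r (δ / 2), lt_min hr0 (by linarith), min ε (δ / 2),
    lt_min hε (by linarith), fun z hz => ⟨fun t => α (z, t), ?_, ?_⟩⟩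
  · exact (hα1 z (Metric.closedBall_subset_closedBall (min_le_left _ _) hz)).1
  · intro τ hτ
    have hzr : z ∈ Metric.closedBall z₀ (r : ℝ) :=
      Metric.closedBall_subset_closedBall (min_le_left _ _) hz
    have hzd : dist z z₀ < δ := by
      have h1 : dist z z₀ ≤ min (r : ℝ) (δ / 2) := hz
      have h2 : min (r : ℝ) (δ / 2) ≤ δ / 2 := min_le_right _ _
      linarith
    have ht1 : -ε < τ := by
      have h1 := hτ.1
      have h2 : min ε (δ / 2) ≤ ε := min_le_left _ _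
      linarith
    have ht2 : τ < ε := lt_of_lt_of_le hτ.2 (min_le_left _ _)
    have ht3 : |τ| < δ := by
      have h2 : min ε (δ / 2) ≤ δ / 2 := min_le_right _ _
      rw [abs_lt]
      constructor
      · have h1 := hτ.1
        linarith
      · have h1 := hτ.2
        linarith
    refine ⟨?_, ?_⟩
    · apply hball
      rw [Metric.mem_ball, Prod.dist_eq]
      refine max_lt hzd ?_
      rw [Real.dist_eq, sub_zero]
      exact ht3
    · have hin : τ ∈ Set.Icc (0 - ε) (0 + ε) := ⟨by linarith, by linarith⟩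
      exact ((hα1 z hzr).2 τ hin).hasDerivAt (Icc_mem_nhds (by linarith) (by linarith))

end Pool.Agent.CIS
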