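import Pool.Agent.CIS.Cmp

/-!
CIS module Lps (size 3): `lp m w s = log (|s|² e^(-m w))` for a nonvanishing holomorphic `s`.
PROOF. `lp m w s = Φ ∘ l` with `Φ = Real.log`, `l = uu m w s > 0` on `U`, `T = Set.Ioi 0`
(`contDiffOn_uu` in DTW/Main.lean; `Real.contDiffOn_log`-like: `ContDiffOn` of `Real.log` on
`{x | x ≠ 0}` restricted to `Ioi 0`). `pb_cx_uu` (DTW/Key.lean) with `pb j s = 0` on `U` gives
`pb k (cx l) z = cexp (-m w) s conj (D_k s)`, where `D_k s = DD m w k s z`; conjugating (`pk_cx`),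
`pk k (cx l) z = cexp (-m w) conj s D_k s` (the exponential is real: `conj` of
`cexp (-(m : ℂ) * cx w z)` is itself, `len_real` in DTW/Main.lean). `deriv Real.log x = x⁻¹`
(`Real.deriv_log`), and `l z = cexp (-m w) s conj s` (`cx_uu`). So
`pk k (cx (lp m w s)) z = D_k s / s` (`pk_comp`).
`LM_uu` with `pb j s = 0` on `U` (so `pk i (pb j s) z = 0` by `pk_congr`) gives
`LM l z k j = cexp (-m w) (D_k s conj (D_j s) - m F_kj s conj s)`. `deriv (deriv Real.log) x = -(x ^ 2)⁻¹`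
(`Real.deriv_log'` : `deriv Real.log = Inv.inv`). `LM_comp`: sum
`-l⁻² e^(-2 m w) s conj s D_k s conj (D_j s) + l⁻¹ e^(-m w) (D_k s conj (D_j s) - m F_kj s conj s) = -m F_kj`.
-/

open scoped ContDiff ComplexConjugate Topology
open Complex

namespace Pool.Agent.CIS

open Pool.Agent.DTW

variable {n : ℕ} {U : Set (E n)} {z : E n} {m : ℝ} {w : E n → ℝ} {s : E n → ℂ}

private theorem Lps_pos {y : E n} (h : s y ≠ 0) : 0 < uu m w s y := by
  unfold uu
  have := norm_pos_iff.2 h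
  positivity

private theorem Lps_log : ContDiffOn ℝ ∞ Real.log (Set.Ioi 0) :=
  Real.contDiffOn_log.mono fun _ hx => (ne_of_gt hx : _ ≠ (0 : ℝ))

private theorem Lps_exp (m : ℝ) (w : E n → ℝ) (z : E n) :
    conj (cexp (-(m : ℂ) * cx w z)) = cexp (-(m : ℂ) * cx w z) := by
  rw [← Complex.exp_conj, map_mul, map_neg, conj_cx, Complex.conj_ofReal]

theorem contDiffOn_lp (hw : ContDiffOn ℝ ∞ w U) (hs : ContDiffOn ℝ ∞ s U)
    (h0 : ∀ y ∈ U, s y ≠ 0) : ContDiffOn ℝ ∞ (lp m w s) U :=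
  (contDiffOn_uu hw hs).log fun y hy => (Lps_pos (h0 y hy)).ne'

/-- the derivative of the length function -/
private theorem Lps_pk (hU : IsOpen U) (hw : ContDiffOn ℝ ∞ w U) (hs : ContDiffOn ℝ ∞ s U)
    (hb : ∀ y ∈ U, ∀ j, pb j s y = 0) (hz : z ∈ U) (k : Ix n) :
    pk k (cx (uu m w s)) z = cexp (-(m : ℂ) * cx w z) * (conj (s z) * DD m w k s z) := by
  have h1 := pb_cx_uu (m := m) hU hw hs hz k
  rw [hb z hz k, zero_mul, zero_add] at h1
  rw [pk_cx (diffAt_of hU (contDiffOn_cx (contDiffOn_uu hw hs)) hz), h1, map_mul, Lps_exp, map_mul,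
    Complex.conj_conj]

theorem pk_lp (hU : IsOpen U) (hw : ContDiffOn ℝ ∞ w U) (hs : ContDiffOn ℝ ∞ s U)
    (hb : ∀ y ∈ U, ∀ j, pb j s y = 0) (h0 : ∀ y ∈ U, s y ≠ 0) (hz : z ∈ U) (k : Ix n) :
    pk k (cx (lp m w s)) z = DD m w k s z / s z := by
  have h1 : pk k (cx (fun y => Real.log (uu m w s y))) z =
      ((deriv Real.log (uu m w s z) : ℝ) : ℂ) * pk k (cx (uu m w s)) z :=
    pk_comp hU (contDiffOn_uu hw hs) isOpen_Ioi (fun y hy => Lps_pos (h0 y hy)) Lps_log hz k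
  have h2 : ((uu m w s z : ℝ) : ℂ) = s z * conj (s z) * cexp (-(m : ℂ) * cx w z) :=
    cx_uu m w s z
  have hs0 := h0 z hz
  have hc0 : conj (s z) ≠ 0 := (map_ne_zero _).2 hs0
  have hE := Complex.exp_ne_zero (-(m : ℂ) * cx w z)
  change pk k (cx (fun y => Real.log (uu m w s y))) z = _
  rw [h1, Lps_pk hU hw hs hb hz, Real.deriv_log, Complex.ofReal_inv, h2]
  field_simp

theorem LM_lp (hU : IsOpen U) (hw : ContDiffOn ℝ ∞ w U) (hs : ContDiffOn ℝ ∞ s U)
    (hb : ∀ y ∈ U, ∀ j, pb j s y = 0) (h0 : ∀ y ∈ U, s y ≠ 0) (hz : z ∈ U) (k j : Ix n) :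
    LM (lp m w s) z k j = -(m : ℂ) * LM w z k j := by
  have h1 : LM (fun y => Real.log (uu m w s y)) z k j
      = ((deriv (deriv Real.log) (uu m w s z) : ℝ) : ℂ)
          * (pk k (cx (uu m w s)) z * conj (pk j (cx (uu m w s)) z))
        + ((deriv Real.log (uu m w s z) : ℝ) : ℂ) * LM (uu m w s) z k j :=
    LM_comp hU (contDiffOn_uu hw hs) isOpen_Ioi (fun y hy => Lps_pos (h0 y hy)) Lps_log hz k j
  have h2 : ((uu m w s z : ℝ) : ℂ) = s z * conj (s z) * cexp (-(m : ℂ) * cx w z) :=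
    cx_uu m w s z
  have hs0 := h0 z hz
  have hc0 : conj (s z) ≠ 0 := (map_ne_zero _).2 hs0
  have hE := Complex.exp_ne_zero (-(m : ℂ) * cx w z)
  have h3 : ∀ a b : Ix n, pk a (pb b s) z = 0 := by
    intro a b
    have e1 : pb b s =ᶠ[𝓝 z] fun _ => (0 : ℂ) := by
      filter_upwards [hU.mem_nhds hz] with y hy
      exact hb y hy b
    rw [pk_congr e1]
    exact d10_const _
  have h4 : deriv (deriv Real.log) (uu m w s z) = -((uu m w s z) ^ 2)⁻¹ := by
    rw [Real.deriv_log']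
    exact deriv_inv
  have h5 : LM (uu m w s) z k j = cexp (-(m : ℂ) * cx w z) *
      (DD m w k s z * conj (DD m w j s z) - m * LM w z k j * (s z * conj (s z))) := by
    rw [LM_uu hU hw hs hz, h3, h3, hb z hz, hb z hz]
    simp only [mul_zero, zero_mul, sub_zero, add_zero, zero_add, map_zero]
  change LM (fun y => Real.log (uu m w s y)) z k j = _
  rw [h1, h5, h4, Lps_pk hU hw hs hb hz, Lps_pk hU hw hs hb hz, Real.deriv_log]
  push_cast
  rw [h2]
  simp only [map_mul, Lps_exp, Complex.conj_conj]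
  field_simp
  ring

end Pool.Agent.CIS
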