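import Pool.Agent.CIS.Lex
import Pool.Agent.CIS.Qaa
import Pool.Agent.CIS.Qab
import Pool.Agent.CIS.Cut

/-!
CIS module StA (size 4): the Hamiltonian field of a holomorphic function on `Off A s` lies in the
kernel of the curvature.
PROOF. Fix `z ∈ Ou A s i`, `x = (A.c i).symm z`, `c = psi B m s x - 1` and
`v = ext B m s (cut c) (fun x => ‖f x‖ ^ 2)`, `Sm A v` by `Sm_ext` (`contDiff_cut`, `cut_zero`,
`SmOff_nq`). Put `F = LM (B.wt i') z'`, `φ k = pk k (f ∘ (A.c i').symm) z'`.
(1) For all `i'`, `z' ∈ Ou A s i'`: `P B v ((A.c i').symm z')`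
`= cut c (lp m (B.wt i') (st A s i') z') * (QQ F (fun k j => φ k * conj (φ j))).re`: `P_eq`
(DTW/Glo.lean; `(A.c i').right_inv`), `LM_ext`, `QQ_five` (hypotheses: `LM_conj`, `iso_all`, `key0'`),
`LM_nq` (module Mul; `vt A (fun x => ‖f x‖ ^ 2) i' = nq (f ∘ (A.c i').symm)` by rfl; `HolOff.smooth`,
`HolOff.pb`, `isOpen_Ou` in Bas), `Complex.re_ofReal_mul`. It is `≥ 0` by `cut_nonneg`, `QQ_ff_nonneg`,
`psd_of_levi` (DTW/Main.lean).
(2) For `y ∉ Off A s`: `P B v y = 0` (`ext_near`, `P_zero_near`).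
(3) So `0 ≤ P B v` on `X` (chart `ix A y`, `mem_ix`), `P B v` is continuous (`continuous_P`), and its
integral is `0` (`int_P`, DTW/Int.lean): `P B v = 0` (`zero_of_integral`). At `x`: by `psi_chart` the
factor `cut c (..) > 0` (`cut_pos`), so the real part of `QQ` is `0`, and `ker_of_QQ` concludes.
-/

open scoped ContDiff ComplexConjugate Topology
open Complex MeasureTheory

namespace Pool.Agent.CIS

open Pool.Agent.DTW

variable {n : ℕ} {X : Type*} [TopologicalSpace X] {ι : Type*} {A : Atlas n X ι} {B : Bundle A}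
  {m : ℤ} {s : ι → X → ℂ} [MeasurableSpace X] [BorelSpace X] [T2Space X] [CompactSpace X]
  {μ : Measure X}

private theorem StA_val (hμ : A.IsVolume μ) (hsp : B.Semipositive) (hq : Para B μ)
    (hs : B.IsSection m s) (hol : B.IsHol s) {f : X → ℂ} (hf : HolOff A s f) (c : ℝ) {i : ι}
    {z : E n} (hz : z ∈ Ou A s i) :
    P B (ext B m s (cut c) (fun x => ‖f x‖ ^ 2)) ((A.c i).symm z)
      = cut c (lp (m : ℝ) (B.wt i) (st A s i) z)
        * (QQ (LM (B.wt i) z) (fun k j => pk k (f ∘ (A.c i).symm) z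
          * conj (pk j (f ∘ (A.c i).symm) z))).re := by
  have hSm := Sm_ext (c := c) hs (contDiff_cut c) (fun x hx => cut_zero hx) (SmOff_nq hf)
  have hLM : LM (vt A (fun x => ‖f x‖ ^ 2) i) z = fun k j => pk k (f ∘ (A.c i).symm) z
      * conj (pk j (f ∘ (A.c i).symm) z) := by
    funext k j
    exact LM_nq (isOpen_Ou hs i) (hf.smooth i) (fun y hy j => hf.pb hs i hy j) hz k j
  rw [P_eq B hSm ((A.c i).map_target hz.1), (A.c i).right_inv hz.1,
    LM_ext hs hol (contDiff_cut c) (SmOff_nq hf) hz,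
    QQ_five (F := LM (B.wt i) z)
      (fun k l => LM_conj (w := B.wt i) (A.c i).open_target (B.smooth i) hz.1 k l)
      (iso_all hμ B hsp hq i z hz.1) (fun j => key0' hμ hsp hq hs hol hz.1 j),
    Complex.re_ofReal_mul, hLM]

omit [MeasurableSpace X] [BorelSpace X] [T2Space X] [CompactSpace X] in
private theorem StA_psd (hsp : B.Semipositive) (i : ι) {z : E n} (hz : z ∈ (A.c i).target) :
    Psd (LM (B.wt i) z) :=
  psd_of_levi (A.c i).open_target (B.smooth i) hz (hsp i z hz)

theorem ker_of_hol (hμ : A.IsVolume μ) (hsp : B.Semipositive) (hq : Para B μ)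
    (hs : B.IsSection m s) (hol : B.IsHol s) {f : X → ℂ} (hf : HolOff A s f) {i : ι} {z : E n}
    (hz : z ∈ Ou A s i) (j : Ix n) :
    ∑ k : Ix n, sg k * LM (B.wt i) z k.swap j * pk k (f ∘ (A.c i).symm) z = 0 := by
  set c : ℝ := psi B m s ((A.c i).symm z) - 1 with hc
  set v : X → ℝ := ext B m s (cut c) (fun x => ‖f x‖ ^ 2) with hv
  have hSm : Sm A v := Sm_ext (c := c) hs (contDiff_cut c) (fun x hx => cut_zero hx) (SmOff_nq hf)
  have hpos : ∀ y, 0 ≤ P B v y := by
    intro y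
    by_cases hy : y ∈ Off A s
    · have hmem := mem_ix A y
      have hz' : A.c (ix A y) y ∈ Ou A s (ix A y) := by
        refine ⟨(A.c (ix A y)).map_source hmem, ?_⟩
        rw [(A.c (ix A y)).left_inv hmem]
        exact hy
      have h1 := StA_val hμ hsp hq hs hol hf c hz'
      rw [(A.c (ix A y)).left_inv hmem] at h1
      rw [hv, h1]
      exact mul_nonneg (cut_nonneg _ _) (QQ_ff_nonneg (StA_psd hsp _ hz'.1) _)
    · rw [P_zero_near B (ext_near (c := c) hs (fun x hx => cut_zero hx) (fun h => absurd h hy))]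
  have hzero := zero_of_integral hμ (continuous_P B hSm) hpos (int_P hμ B hSm) ((A.c i).symm z)
  rw [hv, StA_val hμ hsp hq hs hol hf c hz] at hzero
  have hlt : c < lp (m : ℝ) (B.wt i) (st A s i) z := by
    rw [hc, psi_chart hs hz.1]
    linarith
  have h3 := (mul_eq_zero.1 hzero).resolve_left (cut_pos hlt).ne'
  exact ker_of_QQ (StA_psd hsp i hz.1) h3 j

end Pool.Agent.CIS
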