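import Pool.Agent.CIS.StA
import Pool.Agent.CIS.Gen

/-!
CIS module StB (size 4): `log |s|²` is constant along the Hamiltonian field of a holomorphic function.
PROOF. Fix `z ∈ Ou A s i`, `x = (A.c i).symm z`, `c = psi B m s x - 1`, `hW = Sm_W hs hf`,
`v = ext B m s (cut c) (fun _ => 1)`, `B₁ = triv A (W B m s c f) hW`.
(1) For `z' ∈ Ou A s i'` with `c - 1 < lp m (B.wt i') (st A s i') z'`: `P_triv` with `u = fun _ => 1`
(`SmOff_one`; `hker` from `ker_of_hol`): `vt A u i' = fun _ => 1`, so `cx (vt A u i')` is constant,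
`d = 0` (`d10_const`), `LM (vt A u i') z' = 0` (`pb` of a constant is the zero function, then
`d10_const`); so `P B₁ v = deriv (deriv (cut c)) t * Complex.normSq (∑ k, a k p k) ≥ 0`
(`Complex.mul_conj`, `deriv2_cut_nonneg`).
(2) For `y ∉ Off A s`, or `y ∈ Off A s` with `psi B m s y ≤ c - 1 < c`: `P B₁ v y = 0` (`ext_near` with
`cut_zero`, `P_zero_near`).
(3) So `P B₁ v ≥ 0` on `X` (chart `ix A y`, `psi_chart`), hence `= 0` (`continuous_P`, `int_P`,
`zero_of_integral`). At `x`: `deriv2_cut_pos`, so `∑ k, a k * (D_k s / s) = 0`; multiply by `s ≠ 0`.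
-/

open scoped ContDiff ComplexConjugate Topology
open Complex MeasureTheory

namespace Pool.Agent.CIS

open Pool.Agent.DTW

variable {n : ℕ} {X : Type*} [TopologicalSpace X] {ι : Type*} {A : Atlas n X ι} {B : Bundle A}
  {m : ℤ} {s : ι → X → ℂ} [MeasurableSpace X] [BorelSpace X] [T2Space X] [CompactSpace X]
  {μ : Measure X}

omit [MeasurableSpace X] [BorelSpace X] [T2Space X] [CompactSpace X] in
private theorem stb_d0 (i : ι) (z : E n) (k : Ix n) :
    pk k (cx (vt A (fun _ => (1 : ℝ)) i)) z = 0 := by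
  have h1 : cx (vt A (fun _ => (1 : ℝ)) i) = fun _ => (1 : ℂ) := by
    funext y
    simp [cx, vt]
  unfold pk
  rw [h1]
  exact d10_const 1

omit [MeasurableSpace X] [BorelSpace X] [T2Space X] [CompactSpace X] in
private theorem stb_L0 (i : ι) (z : E n) (k j : Ix n) :
    LM (vt A (fun _ => (1 : ℝ)) i) z k j = 0 := by
  have h1 : cx (vt A (fun _ => (1 : ℝ)) i) = fun _ => (1 : ℂ) := by
    funext y
    simp [cx, vt]
  have h2 : pb j (cx (vt A (fun _ => (1 : ℝ)) i)) = fun _ => (0 : ℂ) := by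
    funext y
    unfold pb
    rw [h1]
    exact d01_const 1
  rw [LM_eq, h2]
  exact d10_const 0

private theorem stb_P (hμ : A.IsVolume μ) (hsp : B.Semipositive) (hq : Para B μ)
    (hs : B.IsSection m s) (hol : B.IsHol s) {f : X → ℂ} (hf : HolOff A s f) {c : ℝ}
    (hW : Sm A (W B m s c f)) {i : ι} {z : E n}
    (hz : z ∈ Ou A s i) (hc : c - 1 < lp (m : ℝ) (B.wt i) (st A s i) z) :
    P (triv A (W B m s c f) hW) (ext B m s (cut c) fun _ => 1) ((A.c i).symm z)
      = deriv (deriv (cut c)) (lp (m : ℝ) (B.wt i) (st A s i) z)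
        * Complex.normSq (∑ k : Ix n, aa A f i z k
          * (DD (m : ℝ) (B.wt i) k (st A s i) z / st A s i z)) := by
  have h := P_triv hs hol hf (u := fun _ => 1) SmOff_one hW hz hc
    (fun j => ker_of_hol hμ hsp hq hs hol hf hz j) _ _ rfl rfl _ rfl
  rw [h]
  simp only [stb_d0, stb_L0, mul_zero, Finset.sum_const_zero, map_zero, zero_mul, add_zero]
  rw [Complex.mul_conj]
  simp only [vt, mul_one]
  rw [← Complex.ofReal_mul, Complex.ofReal_re]

theorem ham_psi (hμ : A.IsVolume μ) (hsp : B.Semipositive) (hq : Para B μ)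
    (hs : B.IsSection m s) (hol : B.IsHol s) {f : X → ℂ} (hf : HolOff A s f) {i : ι} {z : E n}
    (hz : z ∈ Ou A s i) :
    ∑ k : Ix n, aa A f i z k * DD (m : ℝ) (B.wt i) k (st A s i) z = 0 := by
  set x : X := (A.c i).symm z with hx
  set c : ℝ := psi B m s x - 1 with hcdef
  have hxO : x ∈ Off A s := hz.2
  have hW : Sm A (W B m s c f) := Sm_W hs hf
  have hv : Sm A (ext B m s (cut c) fun _ => (1 : ℝ)) :=
    Sm_ext hs (contDiff_cut c) (fun y hy => cut_zero hy) SmOff_one
  have hnn : ∀ y, 0 ≤ P (triv A (W B m s c f) hW) (ext B m s (cut c) fun _ => (1 : ℝ)) y := by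
    intro y
    by_cases hy : y ∈ Off A s ∧ c - 1 < psi B m s y
    · have hi := mem_ix A y
      have hz' : A.c (ix A y) y ∈ Ou A s (ix A y) := by
        refine ⟨(A.c (ix A y)).map_source hi, ?_⟩
        rw [(A.c (ix A y)).left_inv hi]
        exact hy.1
      have hc' : c - 1 < lp (m : ℝ) (B.wt (ix A y)) (st A s (ix A y)) (A.c (ix A y) y) := by
        rw [← psi_chart hs hz'.1, (A.c (ix A y)).left_inv hi]
        exact hy.2
      have h := stb_P hμ hsp hq hs hol hf hW hz' hc'
      rw [(A.c (ix A y)).left_inv hi] at h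
      rw [h]
      exact mul_nonneg (deriv2_cut_nonneg _ _) (Complex.normSq_nonneg _)
    · refine le_of_eq (P_zero_near _ (ext_near hs (c := c) (fun t ht => cut_zero ht) ?_)).symm
      intro hyO
      by_contra hlt
      exact hy ⟨hyO, by linarith⟩
  have h0 := zero_of_integral hμ (continuous_P _ hv) hnn (int_P hμ _ hv) x
  have ht : lp (m : ℝ) (B.wt i) (st A s i) z = c + 1 := by
    rw [← psi_chart hs hz.1, hcdef]
    ring
  have h1 := stb_P hμ hsp hq hs hol hf hW hz (by rw [ht]; linarith)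
  rw [← hx, h0] at h1
  have h2 : 0 < deriv (deriv (cut c)) (lp (m : ℝ) (B.wt i) (st A s i) z) :=
    deriv2_cut_pos (by rw [ht]; linarith)
  have h3 : Complex.normSq (∑ k : Ix n, aa A f i z k
      * (DD (m : ℝ) (B.wt i) k (st A s i) z / st A s i z)) = 0 := by
    rcases mul_eq_zero.1 h1.symm with h | h
    · exact absurd h h2.ne'
    · exact h
  have h4 := Complex.normSq_eq_zero.1 h3
  have h5 : ∑ k : Ix n, aa A f i z k * DD (m : ℝ) (B.wt i) k (st A s i) z
      = st A s i z * ∑ k : Ix n, aa A f i z k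
        * (DD (m : ℝ) (B.wt i) k (st A s i) z / st A s i z) := by
    rw [Finset.mul_sum]
    refine Finset.sum_congr rfl fun k _ => ?_
    have h6 := st_ne hz
    field_simp
  rw [h5, h4, mul_zero]

end Pool.Agent.CIS
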